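import Pool.Agent.H84.KL.Targets

/-!
# Module MLW: Loomis-Whitney with passive variables
-/

set_option autoImplicit false

namespace Pool.Agent.H63.KL

open MeasureTheory Set Filter Topology
open scoped ENNReal NNReal
open Pool.Agent.H84.KL (Co T_LWK)

/-- Lebesgue measure on each coordinate -/
noncomputable abbrev mu (k : ℕ) : Fin k → Measure ℝ := fun _ => volume

lemma lw_step {k : ℕ} (hk : 2 ≤ k) {F : Fin k → (Fin k → ℝ) → ℝ≥0∞} (hF : ∀ i, Measurable (F i))
    (hind : ∀ i (a : Fin k → ℝ) (t : ℝ), F i (Function.update a i t) = F i a) {q : ℝ}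
    (hq : q = 1 / ((k : ℝ) - 1)) (s : Finset (Fin k)) (x : Fin k → ℝ) :
    (∫⋯∫⁻_s, (fun a => ∏ i, F i a ^ q) ∂(mu k)) x ≤
      ∏ i, ((∫⋯∫⁻_(s.erase i), F i ∂(mu k)) x) ^ q := by
  have hk1 : (0 : ℝ) < (k : ℝ) - 1 := by
    have : (2 : ℝ) ≤ k := by exact_mod_cast hk
    linarith
  have hq0 : 0 ≤ q := by rw [hq]; positivity
  have hPm : Measurable (fun a => ∏ i, F i a ^ q) :=
    Finset.measurable_fun_prod _ fun i _ => (hF i).pow_const q
  induction s using Finset.induction generalizing x with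
  | empty => simp
  | insert j s hj ih =>
    rw [lmarginal_insert _ hPm hj]
    have h1 : ∫⁻ t, (∫⋯∫⁻_s, (fun a => ∏ i, F i a ^ q) ∂(mu k)) (Function.update x j t) ∂(mu k j) ≤
        ∫⁻ t, ∏ i, ((∫⋯∫⁻_(s.erase i), F i ∂(mu k)) (Function.update x j t)) ^ q ∂(mu k j) :=
      lintegral_mono fun t => ih (Function.update x j t)
    refine h1.trans ?_
    -- the factor with index `j` is constant
    have h2 : ∀ t : ℝ, (∫⋯∫⁻_(s.erase j), F j ∂(mu k)) (Function.update x j t) =
        (∫⋯∫⁻_((insert j s).erase j), F j ∂(mu k)) x := by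
      intro t
      rw [Finset.erase_insert hj, Finset.erase_eq_of_notMem hj,
        lmarginal_update_of_notMem (hF j) hj]
      congr 1
      funext a
      exact hind j a t
    have h3 : ∀ t : ℝ, ∏ i, ((∫⋯∫⁻_(s.erase i), F i ∂(mu k)) (Function.update x j t)) ^ q =
        ((∫⋯∫⁻_((insert j s).erase j), F j ∂(mu k)) x) ^ q *
          ∏ i ∈ Finset.univ.erase j,
            ((∫⋯∫⁻_(s.erase i), F i ∂(mu k)) (Function.update x j t)) ^ q := by
      intro t
      rw [← Finset.mul_prod_erase _ _ (Finset.mem_univ j), h2]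
    simp_rw [h3]
    have hm : ∀ i, Measurable fun t : ℝ =>
        (∫⋯∫⁻_(s.erase i), F i ∂(mu k)) (Function.update x j t) := fun i =>
      ((hF i).lmarginal (mu k)).comp (measurable_update x)
    rw [lintegral_const_mul _ (Finset.measurable_fun_prod _ fun i _ => (hm i).pow_const q),
      ← Finset.mul_prod_erase Finset.univ _ (Finset.mem_univ j)]
    refine mul_le_mul' le_rfl ?_
    have h4 : ∫⁻ t, ∏ i ∈ Finset.univ.erase j,
        ((∫⋯∫⁻_(s.erase i), F i ∂(mu k)) (Function.update x j t)) ^ q ∂(mu k j) ≤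
        ∏ i ∈ Finset.univ.erase j,
          (∫⁻ t, (∫⋯∫⁻_(s.erase i), F i ∂(mu k)) (Function.update x j t) ∂(mu k j)) ^ q := by
      refine ENNReal.lintegral_prod_norm_pow_le _ (fun i _ => (hm i).aemeasurable) ?_
        (fun i _ => hq0)
      rw [Finset.sum_const, Finset.card_erase_of_mem (Finset.mem_univ j), Finset.card_univ,
        Fintype.card_fin, nsmul_eq_mul, Nat.cast_sub (by omega), Nat.cast_one, hq]
      field_simp
    refine h4.trans (le_of_eq ?_)
    refine Finset.prod_congr rfl fun i hi => ?_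
    have hij : i ≠ j := (Finset.mem_erase.1 hi).1
    congr 1
    rw [Finset.erase_insert_of_ne hij.symm, lmarginal_insert _ (hF i)]
    rw [Finset.mem_erase, not_and_or]
    exact Or.inr hj

/-- the Loomis-Whitney inequality -/
lemma loomis_whitney {k : ℕ} (hk : 2 ≤ k) {F : Fin k → (Fin k → ℝ) → ℝ≥0∞}
    (hF : ∀ i, Measurable (F i))
    (hind : ∀ i (a : Fin k → ℝ) (t : ℝ), F i (Function.update a i t) = F i a) {q : ℝ}
    (hq : q = 1 / ((k : ℝ) - 1)) :
    ∫⁻ a : Fin k → ℝ, ∏ i, F i a ^ q ≤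
      ∏ i, (∫⁻ a in {a : Fin k → ℝ | 0 ≤ a i ∧ a i < 1}, F i a) ^ q := by
  have h1 := lw_step hk hF hind hq Finset.univ 0
  rw [lmarginal_univ] at h1
  refine (show ∫⁻ a : Fin k → ℝ, ∏ i, F i a ^ q ≤ _ from h1).trans (le_of_eq ?_)
  refine Finset.prod_congr rfl fun i _ => ?_
  congr 1
  have hm : MeasurableSet {a : Fin k → ℝ | 0 ≤ a i ∧ a i < 1} :=
    (measurableSet_le measurable_const (measurable_pi_apply i)).inter
      (measurableSet_lt (measurable_pi_apply i) measurable_const)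
  obtain ⟨H, hH⟩ : ∃ H : (Fin k → ℝ) → ℝ≥0∞, H = fun a =>
    (Set.Ico (0 : ℝ) 1).indicator 1 (a i) * F i a := ⟨_, rfl⟩
  have hind1 : Measurable ((Set.Ico (0 : ℝ) 1).indicator (1 : ℝ → ℝ≥0∞)) :=
    measurable_one.indicator measurableSet_Ico
  have hHm : Measurable H := by
    rw [hH]
    exact (hind1.comp (measurable_pi_apply i)).mul (hF i)
  have h2 : ∫⁻ a in {a : Fin k → ℝ | 0 ≤ a i ∧ a i < 1}, F i a = ∫⁻ a, H a := by
    rw [← lintegral_indicator hm, hH]
    refine lintegral_congr fun a => ?_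
    by_cases ha : 0 ≤ a i ∧ a i < 1
    · rw [Set.indicator_of_mem (show a ∈ {a : Fin k → ℝ | 0 ≤ a i ∧ a i < 1} from ha),
        Set.indicator_of_mem (show a i ∈ Set.Ico (0 : ℝ) 1 from ha), Pi.one_apply, one_mul]
    · rw [Set.indicator_of_notMem (show a ∉ {a : Fin k → ℝ | 0 ≤ a i ∧ a i < 1} from ha),
        Set.indicator_of_notMem (show a i ∉ Set.Ico (0 : ℝ) 1 from ha), zero_mul]
  have h3 : ∫⁻ a, H a = (∫⋯∫⁻_Finset.univ, H ∂(mu k)) 0 := by
    rw [lmarginal_univ]
    rfl
  rw [h2, h3, lmarginal_erase _ hHm (Finset.mem_univ i)]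
  have h4 : ∀ y : Fin k → ℝ, (∫⋯∫⁻_(Finset.univ.erase i), H ∂(mu k)) y =
      (Set.Ico (0 : ℝ) 1).indicator 1 (y i) * (∫⋯∫⁻_(Finset.univ.erase i), F i ∂(mu k)) y := by
    intro y
    unfold lmarginal
    have hne : (Set.Ico (0 : ℝ) 1).indicator (1 : ℝ → ℝ≥0∞) (y i) ≠ ∞ := by
      by_cases h : y i ∈ Set.Ico (0 : ℝ) 1
      · rw [Set.indicator_of_mem h]
        exact ENNReal.one_ne_top
      · rw [Set.indicator_of_notMem h]
        exact ENNReal.zero_ne_top
    rw [← lintegral_const_mul' _ _ hne]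
    refine lintegral_congr fun z => ?_
    rw [hH]
    simp only
    congr 2
    rw [Function.updateFinset_def]
    simp
  have h5 : ∀ t : ℝ, (∫⋯∫⁻_(Finset.univ.erase i), F i ∂(mu k)) (Function.update 0 i t) =
      (∫⋯∫⁻_(Finset.univ.erase i), F i ∂(mu k)) 0 := by
    intro t
    rw [lmarginal_update_of_notMem (hF i) (Finset.notMem_erase i _)]
    congr 1
    funext a
    exact hind i a t
  simp_rw [h4, h5, Function.update_self]
  rw [lintegral_mul_const _ hind1, lintegral_indicator_one measurableSet_Ico]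
  simp

theorem lwk_main : T_LWK := by
  intro k m C0 hk
  obtain ⟨q, hq⟩ : ∃ q : ℝ, q = 1 / ((k : ℝ) - 1) := ⟨_, rfl⟩
  obtain ⟨K, hK⟩ : ∃ K : ℝ, K = max C0 1 := ⟨_, rfl⟩
  have hk2 : (2 : ℝ) ≤ k := by exact_mod_cast hk
  have hk1 : (0 : ℝ) < (k : ℝ) - 1 := by linarith
  have hk0 : (0 : ℝ) < k := by linarith
  have hq0 : 0 < q := by rw [hq]; positivity
  have hK1 : 1 ≤ K := by rw [hK]; exact le_max_right _ _
  have hK0 : 0 < K := by linarith
  refine ⟨K ^ q, by positivity, ?_⟩
  intro r S S' f hr hS hS' hSS hf hind hslow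
  -- one copy of the space
  obtain ⟨D, hD⟩ : ∃ D : Fin k → Set (Fin k → ℝ), D = fun i =>
    {a : Fin k → ℝ | 0 ≤ a i ∧ a i < 1} := ⟨_, rfl⟩
  have hDm : ∀ i, MeasurableSet (D i) := fun i => by
    rw [hD]
    exact (measurableSet_le measurable_const (measurable_pi_apply i)).inter
      (measurableSet_lt (measurable_pi_apply i) measurable_const)
  obtain ⟨G, hG⟩ : ∃ G : Fin k → (Fin m → ℝ) → ℝ≥0∞, G = fun i w =>
    ∫⁻ a in D i, f i (a, w) := ⟨_, rfl⟩
  have hGm : ∀ i, Measurable (G i) := by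
    intro i
    rw [hG]
    exact Measurable.lintegral_prod_left (μ := volume.restrict (D i)) (hf i)
  obtain ⟨I, hI⟩ : ∃ I : Fin k → ℝ≥0∞, I = fun i => ∫⁻ w in S', G i w := ⟨_, rfl⟩
  have hIe : ∀ i, (∫⁻ a in {a : Co k m | (0 ≤ a.1 i ∧ a.1 i < 1) ∧ a.2 ∈ S'}, f i a) = I i := by
    intro i
    have h1 : {a : Co k m | (0 ≤ a.1 i ∧ a.1 i < 1) ∧ a.2 ∈ S'} = D i ×ˢ S' := by
      rw [hD]
      rfl
    rw [h1, Measure.volume_eq_prod, ← Measure.prod_restrict, lintegral_prod_symm' _ (hf i), hI, hG]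
  have hLHS : (∫⁻ a in {a : Co k m | a.2 ∈ S}, ∏ i, f i a ^ (1 / ((k : ℝ) - 1))) ≤
      ∫⁻ w in S, ∏ i, G i w ^ q := by
    rw [← hq]
    have h1 : {a : Co k m | a.2 ∈ S} = Set.univ ×ˢ S := by
      ext a
      simp
    have hPm : Measurable (fun a : Co k m => ∏ i, f i a ^ q) :=
      Finset.measurable_fun_prod _ fun i _ => (hf i).pow_const q
    rw [h1, Measure.volume_eq_prod, ← Measure.prod_restrict, lintegral_prod_symm' _ hPm,
      Measure.restrict_univ]
    refine lintegral_mono fun w => ?_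
    have h2 := loomis_whitney hk (F := fun i a => f i (a, w))
      (fun i => (hf i).comp (measurable_id.prodMk measurable_const))
      (fun i a t => hind i (a, w) t) hq
    rw [hG, hD]
    exact h2
  refine hLHS.trans ?_
  -- slow variation
  obtain ⟨β, hβ⟩ : ∃ β : ℝ, β = K * r ^ (-(m : ℝ)) := ⟨_, rfl⟩
  have hβ0 : 0 < β := by rw [hβ]; positivity
  have hGI : ∀ i, ∀ w ∈ S, G i w ≤ ENNReal.ofReal β * I i := by
    intro i w hw
    have h1 : ∀ w' ∈ Metric.closedBall w r, G i w ≤ ENNReal.ofReal K * G i w' := by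
      intro w' hw'
      rw [Metric.mem_closedBall, dist_comm, dist_eq_norm] at hw'
      rw [hG]
      simp only
      rw [← lintegral_const_mul' _ _ ENNReal.ofReal_ne_top]
      refine lintegral_mono fun a => (hslow i a w w' hw hw').trans ?_
      refine mul_le_mul' (ENNReal.ofReal_le_ofReal ?_) le_rfl
      rw [hK]
      exact le_max_left _ _
    have h2 : volume (Metric.closedBall w r) * G i w ≤ ENNReal.ofReal K * I i := by
      calc volume (Metric.closedBall w r) * G i w = ∫⁻ w' in Metric.closedBall w r, G i w := by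
            rw [setLIntegral_const, mul_comm]
        _ ≤ ∫⁻ w' in Metric.closedBall w r, ENNReal.ofReal K * G i w' :=
            setLIntegral_mono' Metric.isClosed_closedBall.measurableSet h1
        _ = ENNReal.ofReal K * ∫⁻ w' in Metric.closedBall w r, G i w' :=
            lintegral_const_mul' _ _ ENNReal.ofReal_ne_top
        _ ≤ ENNReal.ofReal K * I i := by
            rw [hI]
            refine mul_le_mul' le_rfl (lintegral_mono_set fun w' hw' => ?_)
            rw [Metric.mem_closedBall, dist_comm, dist_eq_norm] at hw'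
            exact hSS w hw w' hw'
    rw [Real.volume_pi_closedBall _ hr.le, Fintype.card_fin] at h2
    have h3 : ENNReal.ofReal (r ^ m) * G i w ≤ ENNReal.ofReal K * I i := by
      refine le_trans (mul_le_mul' (ENNReal.ofReal_le_ofReal ?_) le_rfl) h2
      exact pow_le_pow_left₀ hr.le (by linarith) m
    have hrm : 0 < r ^ m := by positivity
    calc G i w = ENNReal.ofReal ((r ^ m)⁻¹) * (ENNReal.ofReal (r ^ m) * G i w) := by
          rw [← mul_assoc, ← ENNReal.ofReal_mul (by positivity), inv_mul_cancel₀ hrm.ne',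
            ENNReal.ofReal_one, one_mul]
      _ ≤ ENNReal.ofReal ((r ^ m)⁻¹) * (ENNReal.ofReal K * I i) := by gcongr
      _ = ENNReal.ofReal β * I i := by
          rw [← mul_assoc, ← ENNReal.ofReal_mul (by positivity), hβ, Real.rpow_neg hr.le,
            Real.rpow_natCast, mul_comm K]
  -- exponents
  obtain ⟨p, hp⟩ : ∃ p : ℝ, p = 1 / (k : ℝ) := ⟨_, rfl⟩
  obtain ⟨p', hp'⟩ : ∃ p' : ℝ, p' = 1 / ((k : ℝ) * ((k : ℝ) - 1)) := ⟨_, rfl⟩
  have hp0 : 0 < p := by rw [hp]; positivity
  have hp'0 : 0 < p' := by rw [hp']; positivity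
  have hpq : q = p + p' := by
    rw [hq, hp, hp']
    field_simp
    ring
  have hpt : ∀ w ∈ S, ∏ i, G i w ^ q ≤
      (∏ i, (ENNReal.ofReal β * I i) ^ p') * ∏ i, G i w ^ p := by
    intro w hw
    rw [← Finset.prod_mul_distrib]
    refine Finset.prod_le_prod' fun i _ => ?_
    rw [hpq, ENNReal.rpow_add_of_nonneg _ _ hp0.le hp'0.le, mul_comm]
    refine mul_le_mul' (ENNReal.rpow_le_rpow (hGI i w hw) hp'0.le) le_rfl
  have hPm : Measurable (fun w => ∏ i, G i w ^ p) :=
    Finset.measurable_fun_prod _ fun i _ => (hGm i).pow_const p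
  have hSsub : S ⊆ S' := fun w hw => hSS w hw w (by rw [sub_self, norm_zero]; exact hr.le)
  have hhold : ∫⁻ w in S, ∏ i, G i w ^ p ≤ ∏ i, I i ^ p := by
    refine (ENNReal.lintegral_prod_norm_pow_le (μ := volume.restrict S) Finset.univ
      (fun i _ => (hGm i).aemeasurable) ?_ (fun i _ => hp0.le)).trans ?_
    · rw [Finset.sum_const, Finset.card_univ, Fintype.card_fin, nsmul_eq_mul, hp]
      field_simp
    · refine Finset.prod_le_prod' fun i _ => ENNReal.rpow_le_rpow ?_ hp0.le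
      rw [hI]
      exact lintegral_mono_set hSsub
  calc ∫⁻ w in S, ∏ i, G i w ^ q
      ≤ ∫⁻ w in S, (∏ i, (ENNReal.ofReal β * I i) ^ p') * ∏ i, G i w ^ p :=
        setLIntegral_mono' hS hpt
    _ = (∏ i, (ENNReal.ofReal β * I i) ^ p') * ∫⁻ w in S, ∏ i, G i w ^ p :=
        lintegral_const_mul _ hPm
    _ ≤ (∏ i, (ENNReal.ofReal β * I i) ^ p') * ∏ i, I i ^ p := by gcongr
    _ = ENNReal.ofReal (β ^ q) * ∏ i, I i ^ q := by
        have h1 : ∀ i, (ENNReal.ofReal β * I i) ^ p' * I i ^ p =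
            ENNReal.ofReal β ^ p' * I i ^ q := by
          intro i
          rw [ENNReal.mul_rpow_of_nonneg _ _ hp'0.le, mul_assoc,
            ← ENNReal.rpow_add_of_nonneg _ _ hp'0.le hp0.le, hpq, add_comm p' p]
        rw [← Finset.prod_mul_distrib, Finset.prod_congr rfl fun i _ => h1 i,
          Finset.prod_mul_distrib, Finset.prod_const, Finset.card_univ, Fintype.card_fin,
          ← ENNReal.rpow_natCast, ← ENNReal.rpow_mul, ENNReal.ofReal_rpow_of_pos hβ0]
        congr 3
        rw [hq, hp']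
        field_simp
    _ = _ := by
        congr 1
        · congr 1
          rw [hβ, Real.mul_rpow hK0.le (by positivity), ← Real.rpow_mul hr.le]
          congr 2
          rw [hq]
          ring
        · refine Finset.prod_congr rfl fun i _ => ?_
          rw [hIe i, hq]

end Pool.Agent.H63.KL
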