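import Pool.Agent.H84.KL.Targets

/-!
# Module MCP: transversality with constants
-/

set_option autoImplicit false

namespace Pool.Agent.H63.KL

open MeasureTheory Set Filter Topology
open Pool.Agent.H84.KL (E Co Ps T_CPL)

/-- `Ps` as a linear map -/
noncomputable def PsL {d k m : ℕ} (v : Fin k → E d) (g : Fin m → E d × ℝ) :
    Co k m →ₗ[ℝ] E d × ℝ where
  toFun := Ps v g
  map_add' a b := by
    simp only [Ps, Prod.fst_add, Prod.snd_add, Pi.add_apply, add_smul, Finset.sum_add_distrib]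
    abel
  map_smul' t a := by
    simp only [Ps, Prod.smul_fst, Prod.smul_snd, Pi.smul_apply, smul_eq_mul, mul_smul,
      RingHom.id_apply, smul_add, Finset.smul_sum]

lemma finrank_space (d : ℕ) : Module.finrank ℝ (E d × ℝ) = d + 1 := by
  simp

/-- extension to a basis, with a constant -/
lemma exists_complement {d k m : ℕ} (hkm : k + m = d + 1) (v : Fin k → E d)
    (hv : LinearIndependent ℝ (fun j => ((v j, 1) : E d × ℝ))) :
    ∃ (g : Fin m → E d × ℝ) (C : ℝ), 0 < C ∧ ∀ c : Co k m, ‖c‖ ≤ C * ‖Ps v g c‖ := by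
  obtain ⟨S, hS⟩ : ∃ S : Submodule ℝ (E d × ℝ),
    S = Submodule.span ℝ (Set.range (fun j => ((v j, 1) : E d × ℝ))) := ⟨_, rfl⟩
  obtain ⟨W, hW⟩ := S.exists_isCompl
  have hSr : Module.finrank ℝ S = k := by
    rw [hS, finrank_span_eq_card hv, Fintype.card_fin]
  have hWr : Module.finrank ℝ W = m := by
    have := Submodule.finrank_add_eq_of_isCompl hW
    rw [finrank_space, hSr] at this
    omega
  let b := Module.finBasisOfFinrankEq ℝ W hWr
  obtain ⟨g, hg⟩ : ∃ g : Fin m → E d × ℝ, g = fun j => ((b j : W) : E d × ℝ) := ⟨_, rfl⟩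
  have hgl : LinearIndependent ℝ g := by
    rw [hg]
    exact b.linearIndependent.map' W.subtype (Submodule.ker_subtype W)
  have hgs : Submodule.span ℝ (Set.range g) ≤ W := by
    rw [Submodule.span_le]
    rintro _ ⟨j, rfl⟩
    rw [hg]
    exact (b j).2
  have hli : LinearIndependent ℝ (Sum.elim (fun j => ((v j, 1) : E d × ℝ)) g) := by
    refine hv.sum_type hgl ?_
    rw [← hS]
    exact hW.disjoint.mono_right hgs
  have hker : LinearMap.ker (PsL v g) = ⊥ := by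
    rw [LinearMap.ker_eq_bot']
    intro c hc
    have h1 : ∑ i : Fin k ⊕ Fin m, (Sum.elim c.1 c.2 i) •
        (Sum.elim (fun j => ((v j, 1) : E d × ℝ)) g i) = 0 := by
      rw [Fintype.sum_sum_type]
      simp only [Sum.elim_inl, Sum.elim_inr]
      exact hc
    have h2 := Fintype.linearIndependent_iff.1 hli _ h1
    ext j
    · exact h2 (Sum.inl j)
    · exact h2 (Sum.inr j)
  obtain ⟨K, hK0, hK⟩ := (PsL v g).exists_antilipschitzWith hker
  refine ⟨g, K, by exact_mod_cast hK0, fun c => ?_⟩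
  have h1 := hK.le_mul_dist c 0
  rw [map_zero, dist_zero_right, dist_zero_right] at h1
  exact h1

lemma Ps_sub {d k m : ℕ} (v v' : Fin k → E d) (g : Fin m → E d × ℝ) (c : Co k m) :
    Ps v g c - Ps v' g c = ∑ i, c.1 i • ((v i - v' i, 0) : E d × ℝ) := by
  unfold Ps
  rw [add_sub_add_right_eq_sub, ← Finset.sum_sub_distrib]
  refine Finset.sum_congr rfl fun i _ => ?_
  rw [← smul_sub]
  congr 1
  ext <;> simp

lemma perturb {d k m : ℕ} {v v' : Fin k → E d} {g : Fin m → E d × ℝ} {C ε : ℝ} (hC : 0 < C)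
    (hε : C * (k * ε) ≤ 1 / 2) (h : ∀ c : Co k m, ‖c‖ ≤ C * ‖Ps v g c‖)
    (hv : ∀ i, ‖v i - v' i‖ ≤ ε) (c : Co k m) : ‖c‖ ≤ 2 * C * ‖Ps v' g c‖ := by
  have h1 : ‖Ps v g c - Ps v' g c‖ ≤ k * ε * ‖c‖ := by
    rw [Ps_sub]
    calc ‖∑ i, c.1 i • ((v i - v' i, 0) : E d × ℝ)‖ ≤ ∑ _i : Fin k, ‖c‖ * ε := by
          refine norm_sum_le_of_le _ fun i _ => ?_
          rw [norm_smul]
          have h2 : ‖((v i - v' i, 0) : E d × ℝ)‖ ≤ ε := by
            rw [Prod.norm_mk, norm_zero, max_eq_left (norm_nonneg _)]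
            exact hv i
          have h3 : ‖c.1 i‖ ≤ ‖c‖ := (norm_le_pi_norm c.1 i).trans (norm_fst_le c)
          gcongr
      _ = k * ε * ‖c‖ := by
          rw [Finset.sum_const, Finset.card_univ, Fintype.card_fin, nsmul_eq_mul]
          ring
  have h2 : ‖Ps v g c‖ ≤ ‖Ps v' g c‖ + k * ε * ‖c‖ := by
    have : Ps v g c = Ps v' g c + (Ps v g c - Ps v' g c) := by abel
    calc ‖Ps v g c‖ = ‖Ps v' g c + (Ps v g c - Ps v' g c)‖ := by rw [← this]
      _ ≤ _ := (norm_add_le _ _).trans (by linarith)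
  have h3 := h c
  have h4 : C * ‖Ps v g c‖ ≤ C * (‖Ps v' g c‖ + k * ε * ‖c‖) := by gcongr
  have h5 : C * (k * ε) * ‖c‖ ≤ 1 / 2 * ‖c‖ := mul_le_mul_of_nonneg_right hε (norm_nonneg c)
  nlinarith

theorem cpl_main : T_CPL := by
  classical
  intro d k Γ hcomp hne h0 hli
  have hneg : ∀ ξ : Fin k → E d, (∀ j, ξ j ∈ Γ j) →
      LinearIndependent ℝ (fun j => ((-(‖ξ j‖⁻¹ • ξ j), 1) : E d × ℝ)) := by
    intro ξ hξ
    have h1 := hli ξ hξ
    let N : E d × ℝ →ₗ[ℝ] E d × ℝ := LinearMap.prodMap (-LinearMap.id) LinearMap.id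
    have hN : LinearMap.ker N = ⊥ := by
      rw [LinearMap.ker_eq_bot']
      rintro ⟨x, t⟩ hx
      simp only [N, LinearMap.prodMap_apply, LinearMap.neg_apply, LinearMap.id_apply,
        Prod.mk_eq_zero, neg_eq_zero] at hx
      rw [hx.1, hx.2]
      rfl
    exact h1.map' N hN
  choose η₀ hη₀ using hne
  have hk : k ≤ d + 1 := by
    have := (hneg η₀ hη₀).fintype_card_le_finrank
    rwa [Fintype.card_fin, finrank_space] at this
  obtain ⟨m, hm⟩ : ∃ m : ℕ, k + m = d + 1 := ⟨d + 1 - k, by omega⟩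
  obtain ⟨P, hP⟩ : ∃ P : Set (Fin k → E d) → Prop, P = fun U => ∃ Cb : ℝ, ∀ ξ ∈ U,
    ∃ g : Fin m → E d × ℝ, (∀ j, ‖g j‖ ≤ Cb) ∧
      ∀ c : Co k m, ‖c‖ ≤ Cb * ‖Ps (fun j => -(‖ξ j‖⁻¹ • ξ j)) g c‖ := ⟨_, rfl⟩
  have hK : IsCompact (Set.pi Set.univ Γ) := isCompact_univ_pi hcomp
  have hmain : ∃ U : Set (Fin k → E d), IsOpen U ∧ Set.pi Set.univ Γ ⊆ U ∧ P U := by
    refine hK.induction_on (p := fun s => ∃ U : Set (Fin k → E d), IsOpen U ∧ s ⊆ U ∧ P U)
      ?_ ?_ ?_ ?_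
    · refine ⟨∅, isOpen_empty, Subset.rfl, ?_⟩
      rw [hP]
      exact ⟨0, fun ξ hξ => absurd hξ (Set.notMem_empty ξ)⟩
    · rintro s t hst ⟨U, hU, htU, hPU⟩
      exact ⟨U, hU, hst.trans htU, hPU⟩
    · rintro s t ⟨U, hU, hsU, hPU⟩ ⟨V, hV, htV, hPV⟩
      refine ⟨U ∪ V, hU.union hV, Set.union_subset_union hsU htV, ?_⟩
      rw [hP] at hPU hPV ⊢
      obtain ⟨C1, hC1⟩ := hPU
      obtain ⟨C2, hC2⟩ := hPV
      refine ⟨max C1 C2, ?_⟩
      rintro ξ (hξ | hξ)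
      · obtain ⟨g, hg, hc⟩ := hC1 ξ hξ
        refine ⟨g, fun j => (hg j).trans (le_max_left _ _), fun c => (hc c).trans ?_⟩
        gcongr
        exact le_max_left _ _
      · obtain ⟨g, hg, hc⟩ := hC2 ξ hξ
        refine ⟨g, fun j => (hg j).trans (le_max_right _ _), fun c => (hc c).trans ?_⟩
        gcongr
        exact le_max_right _ _
    · intro ξ₀ hξ₀
      rw [Set.mem_univ_pi] at hξ₀
      obtain ⟨g, C, hC, hg⟩ := exists_complement hm _ (hneg ξ₀ hξ₀)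
      obtain ⟨ε, hε⟩ : ∃ ε : ℝ, ε = 1 / (2 * C * (k + 1)) := ⟨_, rfl⟩
      have hε0 : 0 < ε := by rw [hε]; positivity
      have hCε : C * (k * ε) ≤ 1 / 2 := by
        rw [hε]
        have h1 : C * (k * (1 / (2 * C * (k + 1)))) = 1 / 2 * (k / (k + 1)) := by
          field_simp
        rw [h1]
        have h2 : (k : ℝ) / (k + 1) ≤ 1 := by
          rw [div_le_one (by positivity)]
          linarith
        linarith
      have hev : ∀ᶠ ξ : Fin k → E d in 𝓝 ξ₀, ∀ j,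
          ‖(-(‖ξ₀ j‖⁻¹ • ξ₀ j)) - (-(‖ξ j‖⁻¹ • ξ j))‖ < ε := by
        rw [eventually_all]
        intro j
        have hξj : ξ₀ j ≠ 0 := by
          intro h
          exact h0 j (h ▸ hξ₀ j)
        have hcj : ContinuousAt (fun ξ : Fin k → E d => -(‖ξ j‖⁻¹ • ξ j)) ξ₀ := by
          have h1 : ContinuousAt (fun ξ : Fin k → E d => ξ j) ξ₀ := (continuous_apply j).continuousAt
          have h2 : ContinuousAt (fun ξ : Fin k → E d => ‖ξ j‖⁻¹) ξ₀ :=
            h1.norm.inv₀ (norm_ne_zero_iff.2 hξj)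
          exact (h2.smul h1).neg
        have h3 : ContinuousAt (fun ξ : Fin k → E d =>
            ‖(-(‖ξ₀ j‖⁻¹ • ξ₀ j)) - (-(‖ξ j‖⁻¹ • ξ j))‖) ξ₀ :=
          (continuousAt_const.sub hcj).norm
        refine h3.eventually_lt_const ?_
        simp only [sub_self, norm_zero]
        exact hε0
      obtain ⟨U, hU1, hU2, hU3⟩ := mem_nhds_iff.1 hev
      refine ⟨U, mem_nhdsWithin_of_mem_nhds (hU2.mem_nhds hU3), U, hU2, Subset.rfl, ?_⟩
      rw [hP]
      refine ⟨2 * C + ∑ j, ‖g j‖, fun ξ hξ => ⟨g, fun j => ?_, fun c => ?_⟩⟩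
      · have h1 : ‖g j‖ ≤ ∑ j, ‖g j‖ :=
          Finset.single_le_sum (f := fun j => ‖g j‖) (fun i _ => norm_nonneg _)
            (Finset.mem_univ j)
        linarith
      · have h1 := perturb hC hCε hg (fun i => (hU1 hξ i).le) c
        refine h1.trans ?_
        gcongr
        have : 0 ≤ ∑ j, ‖g j‖ := Finset.sum_nonneg fun j _ => norm_nonneg _
        linarith
  obtain ⟨U, hU, hKU, hPU⟩ := hmain
  obtain ⟨δ, hδ, hth⟩ := hK.exists_cthickening_subset_open hU hKU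
  rw [hP] at hPU
  obtain ⟨Cb, hCb⟩ := hPU
  refine ⟨m, Cb, δ, hm, hδ, fun ξ hξ => hCb ξ (hth ?_)⟩
  choose η hη hηδ using hξ
  refine Metric.mem_cthickening_of_dist_le ξ η δ _ ?_ ?_
  · rw [Set.mem_univ_pi]
    exact hη
  · rw [dist_pi_le_iff hδ.le]
    intro j
    rw [dist_eq_norm]
    exact hηδ j

end Pool.Agent.H63.KL
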