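import Pool.Agent.H63.KL.CPL
import Pool.Agent.H84.KL.WT

/-!
# Module MIN: the inner integral
-/

set_option autoImplicit false

namespace Pool.Agent.H63.KL

open MeasureTheory Set Filter Topology
open scoped ENNReal NNReal
open Pool.Agent.H84.KL (E Co Ps T_CPL T_INN La wt wt_pos continuous_wt wt_slow wt_two wt_integral)

/-- change of variables with a uniform constant -/
lemma change_var {d k m : ℕ} (hkm : k + m = d + 1) (CA : ℝ) : ∃ K : ℝ≥0∞, K ≠ ∞ ∧
    ∀ T : Co k m →ₗ[ℝ] E d × ℝ, (∀ a, ‖a‖ ≤ CA * ‖T a‖) → ∀ F : E d × ℝ → ℝ≥0∞, Measurable F →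
      ∫⁻ a, F (T a) ≤ K * ∫⁻ y, F y := by
  obtain ⟨V, hV⟩ : ∃ V : ℝ≥0∞, V = volume (Metric.closedBall (0 : E d × ℝ) 1) := ⟨_, rfl⟩
  have hV0 : V ≠ 0 := by
    rw [hV]
    exact (Metric.measure_closedBall_pos volume _ one_pos).ne'
  have hVt : V ≠ ∞ := by
    rw [hV]
    exact (isCompact_closedBall _ _).measure_lt_top.ne
  have hBt : volume (Metric.closedBall (0 : Co k m) |CA|) ≠ ∞ :=
    (isCompact_closedBall _ _).measure_lt_top.ne
  have hp : ∀ n : ℕ, (volume : Measure (Fin n → ℝ)).IsAddHaarMeasure := fun n =>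
    isAddHaarMeasure_volume_pi (Fin n)
  have hi1 : (volume : Measure (Co k m)).IsAddHaarMeasure := by
    have := hp k
    have := hp m
    exact Measure.prod.instIsAddHaarMeasure (volume : Measure (Fin k → ℝ))
      (volume : Measure (Fin m → ℝ))
  have hi2 : (volume : Measure (E d × ℝ)).IsAddHaarMeasure := by
    rw [Measure.volume_eq_prod]
    infer_instance
  refine ⟨volume (Metric.closedBall (0 : Co k m) |CA|) / V, ENNReal.div_ne_top hBt hV0, ?_⟩
  intro T hT F hF
  have hinj : Function.Injective T := by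
    rw [← LinearMap.ker_eq_bot, LinearMap.ker_eq_bot']
    intro a ha
    have h1 := hT a
    rw [ha, norm_zero, mul_zero] at h1
    exact norm_le_zero_iff.1 h1
  have hdim : Module.finrank ℝ (Co k m) = Module.finrank ℝ (E d × ℝ) := by
    rw [finrank_space, ← hkm]
    simp
  let e₀ := (T.linearEquivOfInjective hinj hdim).toContinuousLinearEquiv
  have he : ∀ a, e₀ a = T a := fun a => rfl
  have : (Measure.map e₀ (volume : Measure (Co k m))).IsAddHaarMeasure :=
    e₀.isAddHaarMeasure_map _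
  obtain ⟨c, hc⟩ : ∃ c : ℝ≥0, Measure.map e₀ (volume : Measure (Co k m)) =
      c • (volume : Measure (E d × ℝ)) :=
    ⟨_, Measure.isAddLeftInvariant_eq_smul _ _⟩
  have hem : Measurable e₀ := e₀.continuous.measurable
  have hcV : (c : ℝ≥0∞) * V ≤ volume (Metric.closedBall (0 : Co k m) |CA|) := by
    have h1 : Measure.map e₀ (volume : Measure (Co k m)) (Metric.closedBall (0 : E d × ℝ) 1) =
        (c : ℝ≥0∞) * V := by
      rw [hc, hV]
      rfl
    rw [← h1, Measure.map_apply hem Metric.isClosed_closedBall.measurableSet]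
    refine measure_mono fun a ha => ?_
    rw [Set.mem_preimage, mem_closedBall_zero_iff, he] at ha
    rw [mem_closedBall_zero_iff]
    calc ‖a‖ ≤ CA * ‖T a‖ := hT a
      _ ≤ |CA| * ‖T a‖ := by
          gcongr
          exact le_abs_self _
      _ ≤ |CA| * 1 := by gcongr
      _ = |CA| := mul_one _
  have hcK : (c : ℝ≥0∞) ≤ volume (Metric.closedBall (0 : Co k m) |CA|) / V := by
    rw [ENNReal.le_div_iff_mul_le (Or.inl hV0) (Or.inl hVt)]
    exact hcV
  calc ∫⁻ a, F (T a) = ∫⁻ a, F (e₀ a) := rfl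
    _ = ∫⁻ y, F y ∂(Measure.map e₀ volume) := (lintegral_map hF hem).symm
    _ = c * ∫⁻ y, F y := by
        rw [hc]
        exact lintegral_smul_measure _ _
    _ ≤ _ := by gcongr

/-- `La` as a linear map -/
noncomputable def LaL {d k m : ℕ} (v : Fin k → E d) (g : Fin m → E d × ℝ) (i : Fin k) :
    Co k m →ₗ[ℝ] E d where
  toFun := La v g i
  map_add' a b := by
    have := (PsL v g).map_add a b
    change Ps v g (a + b) = Ps v g a + Ps v g b at this
    simp only [La, this, Prod.fst_add, Prod.snd_add, add_smul]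
    abel
  map_smul' t a := by
    have := (PsL v g).map_smul t a
    change Ps v g (t • a) = t • Ps v g a at this
    simp only [La, this, Prod.smul_fst, Prod.smul_snd, smul_eq_mul, mul_smul, RingHom.id_apply,
      smul_sub]

/-- the coordinate vector -/
noncomputable def ei {k m : ℕ} (i : Fin k) : Co k m := (Pi.single i 1, 0)

lemma Ps_ei {d k m : ℕ} (v : Fin k → E d) (g : Fin m → E d × ℝ) (i : Fin k) :
    Ps v g (ei i : Co k m) = (v i, 1) := by
  unfold Ps ei
  simp only [Pi.zero_apply, zero_smul, Finset.sum_const_zero, add_zero]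
  rw [Finset.sum_eq_single i]
  · simp
  · intro j _ hj
    rw [Pi.single_eq_of_ne hj, zero_smul]
  · intro h
    exact absurd (Finset.mem_univ i) h

lemma La_ei {d k m : ℕ} (v : Fin k → E d) (g : Fin m → E d × ℝ) (i : Fin k) :
    La v g i (ei i : Co k m) = 0 := by
  unfold La
  rw [Ps_ei]
  simp

lemma norm_ei {k m : ℕ} (i : Fin k) : ‖(ei i : Co k m)‖ ≤ 1 := by
  unfold ei
  rw [Prod.norm_mk, norm_zero]
  refine max_le ?_ (by norm_num)
  rw [pi_norm_le_iff_of_nonneg (by norm_num)]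
  intro j
  by_cases h : j = i
  · subst h
    rw [Pi.single_eq_same]
    simp
  · rw [Pi.single_eq_of_ne h]
    simp

lemma norm_le_T {d k m : ℕ} {Cb : ℝ} {v : Fin k → E d} {g : Fin m → E d × ℝ} (i : Fin k)
    (h : ∀ a : Co k m, ‖a‖ ≤ Cb * ‖Ps v g a‖) (a : Co k m) :
    ‖a‖ ≤ (2 * |Cb| + 1) * ‖((La v g i a, a.1 i) : E d × ℝ)‖ := by
  obtain ⟨t, ht⟩ : ∃ t : ℝ, t = (Ps v g a).2 := ⟨_, rfl⟩
  obtain ⟨a', ha'⟩ : ∃ a' : Co k m, a' = a - t • ei i := ⟨_, rfl⟩
  have h1 : Ps v g a' = (La v g i a, 0) := by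
    have h2 : Ps v g a' = Ps v g a - t • Ps v g (ei i) := by
      rw [ha']
      have := (PsL v g).map_sub a (t • ei i)
      rw [map_smul] at this
      exact this
    rw [h2, Ps_ei, ht]
    ext1
    · simp [La]
    · simp
  have h3 : ‖a'‖ ≤ |Cb| * ‖La v g i a‖ := by
    have h4 := h a'
    rw [h1, Prod.norm_mk (La v g i a) (0 : ℝ), norm_zero, max_eq_left (norm_nonneg _)] at h4
    refine h4.trans ?_
    gcongr
    exact le_abs_self _
  have h5 : a'.1 i = a.1 i - t := by
    rw [ha']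
    simp [ei]
  have h6 : |t| ≤ |a.1 i| + ‖a'‖ := by
    have h7 : ‖a'.1 i‖ ≤ ‖a'‖ := (norm_le_pi_norm a'.1 i).trans (norm_fst_le a')
    rw [Real.norm_eq_abs, h5] at h7
    have h8 : t = a.1 i - (a.1 i - t) := by ring
    calc |t| = |a.1 i - (a.1 i - t)| := by rw [← h8]
      _ ≤ |a.1 i| + |a.1 i - t| := abs_sub _ _
      _ ≤ _ := by linarith
  have h9 : ‖a‖ ≤ ‖a'‖ + |t| := by
    have h10 : a = a' + t • ei i := by
      rw [ha']
      abel
    calc ‖a‖ = ‖a' + t • ei i‖ := by rw [← h10]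
      _ ≤ ‖a'‖ + ‖t • (ei i : Co k m)‖ := norm_add_le _ _
      _ ≤ ‖a'‖ + |t| * 1 := by
          rw [norm_smul, Real.norm_eq_abs]
          gcongr
          exact norm_ei i
      _ = _ := by rw [mul_one]
  have hn1 : ‖La v g i a‖ ≤ ‖((La v g i a, a.1 i) : E d × ℝ)‖ := le_max_left _ _
  have hn2 : |a.1 i| ≤ ‖((La v g i a, a.1 i) : E d × ℝ)‖ := le_max_right _ _
  have h11 : |Cb| * ‖La v g i a‖ ≤ |Cb| * ‖((La v g i a, a.1 i) : E d × ℝ)‖ := by gcongr
  linarith

lemma norm_Ps_le {d k m : ℕ} {Cb : ℝ} {v : Fin k → E d} {g : Fin m → E d × ℝ}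
    (hv : ∀ j, ‖v j‖ ≤ 1) (hg : ∀ j, ‖g j‖ ≤ Cb) (a : Co k m) :
    ‖Ps v g a‖ ≤ (k + m * |Cb|) * ‖a‖ := by
  unfold Ps
  calc _ ≤ ‖∑ i, a.1 i • ((v i, 1) : E d × ℝ)‖ + ‖∑ j, a.2 j • g j‖ := norm_add_le _ _
    _ ≤ (∑ _i : Fin k, ‖a‖ * 1) + ∑ _j : Fin m, ‖a‖ * |Cb| := by
        refine add_le_add (norm_sum_le_of_le _ fun i _ => ?_) (norm_sum_le_of_le _ fun j _ => ?_)
        · rw [norm_smul]
          have h1 : ‖((v i, 1) : E d × ℝ)‖ ≤ 1 := by
            rw [Prod.norm_mk]
            exact max_le (hv i) (by simp)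
          have h2 : ‖a.1 i‖ ≤ ‖a‖ := (norm_le_pi_norm a.1 i).trans (norm_fst_le a)
          gcongr
        · rw [norm_smul]
          have h1 : ‖g j‖ ≤ |Cb| := (hg j).trans (le_abs_self _)
          have h2 : ‖a.2 j‖ ≤ ‖a‖ := (norm_le_pi_norm a.2 j).trans (norm_snd_le a)
          gcongr
    _ = _ := by
        simp only [Finset.sum_const, Finset.card_univ, Fintype.card_fin, nsmul_eq_mul]
        ring

lemma norm_La_le {d k m : ℕ} {Cb : ℝ} {v : Fin k → E d} {g : Fin m → E d × ℝ} (i : Fin k)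
    (hv : ∀ j, ‖v j‖ ≤ 1) (hg : ∀ j, ‖g j‖ ≤ Cb) (a : Co k m) :
    ‖La v g i a‖ ≤ 2 * (k + m * |Cb|) * ‖a‖ := by
  unfold La
  have h1 := norm_Ps_le hv hg a
  calc ‖(Ps v g a).1 - (Ps v g a).2 • v i‖ ≤ ‖(Ps v g a).1‖ + ‖(Ps v g a).2 • v i‖ :=
        norm_sub_le _ _
    _ ≤ ‖Ps v g a‖ + ‖Ps v g a‖ * 1 := by
        rw [norm_smul]
        have h2 := norm_fst_le (Ps v g a)
        have h3 := norm_snd_le (Ps v g a)
        have h4 := hv i
        gcongr
    _ ≤ _ := by linarith

theorem inn_main : T_INN := by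
  intro d k m Cb B hkm
  obtain ⟨K, hKt, hK⟩ := change_var (d := d) hkm (2 * |Cb| + 1)
  obtain ⟨C1, hC1⟩ : ∃ C1 : ℝ, C1 = 2 * (k + m * |Cb|) * |B| := ⟨_, rfl⟩
  have hC10 : 0 ≤ C1 := by rw [hC1]; positivity
  obtain ⟨Cs, hCs, hslow⟩ := wt_slow (d := d) C1
  obtain ⟨Ci, hCi, hint⟩ := wt_integral (d := d)
  obtain ⟨V, hV⟩ : ∃ V : ℝ≥0∞, V = volume (Metric.ball (0 : E d) 1) := ⟨_, rfl⟩
  have hVt : V ≠ ∞ := by
    rw [hV]
    exact measure_ball_lt_top.ne
  obtain ⟨κ, hκ⟩ : ∃ κ : ℝ, κ = K.toReal := ⟨_, rfl⟩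
  have hκ0 : 0 ≤ κ := by rw [hκ]; exact ENNReal.toReal_nonneg
  have hKκ : K = ENNReal.ofReal κ := by rw [hκ, ENNReal.ofReal_toReal hKt]
  obtain ⟨w, hw⟩ : ∃ w : ℝ, w = V.toReal := ⟨_, rfl⟩
  have hw0 : 0 ≤ w := by rw [hw]; exact ENNReal.toReal_nonneg
  have hVw : V = ENNReal.ofReal w := by rw [hw, ENNReal.ofReal_toReal hVt]
  refine ⟨Cs * (κ * Ci + κ * (C1 ^ d * w)) + 1, by positivity, ?_⟩
  intro i v g L r x c hL hr hv hg hPs
  have hLr : 0 < L * r := by positivity
  have hL0 : 0 < L := by linarith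
  -- the linear map
  let T : Co k m →ₗ[ℝ] E d × ℝ := (LaL v g i).prod
    ((LinearMap.proj i : (Fin k → ℝ) →ₗ[ℝ] ℝ) ∘ₗ LinearMap.fst ℝ (Fin k → ℝ) (Fin m → ℝ))
  have hTa : ∀ a : Co k m, T a = (La v g i a, a.1 i) := fun a => rfl
  have hT : ∀ a, ‖a‖ ≤ (2 * |Cb| + 1) * ‖T a‖ := fun a => by
    rw [hTa]
    exact norm_le_T i hPs a
  obtain ⟨D, hD⟩ : ∃ D : Set (Co k m), D = {a : Co k m | (0 ≤ a.1 i ∧ a.1 i < 1) ∧
      (∀ j, j ≠ i → |a.1 j - c.1 j| ≤ B * (L * r)) ∧ ∀ j, |a.2 j - c.2 j| ≤ B * (L * r)} := ⟨_, rfl⟩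
  rw [← hD]
  have hDm : MeasurableSet D := by
    have m1 : ∀ j, Measurable fun a : Co k m => a.1 j := fun j =>
      (measurable_pi_apply j).comp measurable_fst
    have m2 : ∀ j, Measurable fun a : Co k m => a.2 j := fun j =>
      (measurable_pi_apply j).comp measurable_snd
    have hDe : D = ({a : Co k m | 0 ≤ a.1 i} ∩ {a : Co k m | a.1 i < 1}) ∩
        ((⋂ j : Fin k, {a : Co k m | j ≠ i → |a.1 j - c.1 j| ≤ B * (L * r)}) ∩
        ⋂ j : Fin m, {a : Co k m | |a.2 j - c.2 j| ≤ B * (L * r)}) := by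
      rw [hD]
      ext a
      simp only [Set.mem_ofPred_eq, Set.mem_inter_iff, Set.mem_iInter]
    rw [hDe]
    refine MeasurableSet.inter (MeasurableSet.inter ?_ ?_) (MeasurableSet.inter ?_ ?_)
    · exact measurableSet_le measurable_const (m1 i)
    · exact measurableSet_lt (m1 i) measurable_const
    · refine MeasurableSet.iInter fun j => ?_
      by_cases hj : j = i
      · have : {a : Co k m | j ≠ i → |a.1 j - c.1 j| ≤ B * (L * r)} = Set.univ := by
          ext a
          simp [hj]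
        rw [this]
        exact MeasurableSet.univ
      · have : {a : Co k m | j ≠ i → |a.1 j - c.1 j| ≤ B * (L * r)} =
            {a : Co k m | |a.1 j - c.1 j| ≤ B * (L * r)} := by
          ext a
          simp [hj]
        rw [this]
        exact measurableSet_le ((m1 j).sub_const _).abs measurable_const
    · exact MeasurableSet.iInter fun j =>
        measurableSet_le ((m2 j).sub_const _).abs measurable_const
  -- the points of `D`
  have hLac : ∀ a ∈ D, ‖La v g i a - La v g i c‖ ≤ C1 * (L * r) := by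
    intro a ha
    rw [hD] at ha
    obtain ⟨_, h2, h3⟩ := ha
    obtain ⟨b, hb⟩ : ∃ b : Co k m, b = a - c - (a.1 i - c.1 i) • ei i := ⟨_, rfl⟩
    have hLab : La v g i b = La v g i a - La v g i c := by
      have h4 : La v g i (a - c - (a.1 i - c.1 i) • ei i) = La v g i (a - c) -
        La v g i ((a.1 i - c.1 i) • ei i) := (LaL v g i).map_sub _ _
      have h5 : La v g i (a - c) = La v g i a - La v g i c := (LaL v g i).map_sub _ _
      have h6 : La v g i ((a.1 i - c.1 i) • (ei i : Co k m)) =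
        (a.1 i - c.1 i) • La v g i (ei i) := (LaL v g i).map_smul _ _
      rw [hb, h4, h5, h6, La_ei, smul_zero, sub_zero]
    have hbn : ‖b‖ ≤ |B| * (L * r) := by
      have hBB : B * (L * r) ≤ |B| * (L * r) := by
        gcongr
        exact le_abs_self _
      refine max_le ?_ ?_
      · rw [pi_norm_le_iff_of_nonneg (by positivity)]
        intro j
        rw [hb, Real.norm_eq_abs]
        by_cases hj : j = i
        · subst hj
          simp only [ei, Prod.fst_sub, Prod.smul_fst, Pi.sub_apply, Pi.smul_apply,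
            Pi.single_eq_same, smul_eq_mul, mul_one, sub_self, abs_zero]
          positivity
        · simp only [ei, Prod.fst_sub, Prod.smul_fst, Pi.sub_apply, Pi.smul_apply,
            Pi.single_eq_of_ne hj, smul_eq_mul, mul_zero, sub_zero]
          exact (h2 j hj).trans hBB
      · rw [pi_norm_le_iff_of_nonneg (by positivity)]
        intro j
        rw [hb, Real.norm_eq_abs]
        simp only [ei, Prod.snd_sub, Prod.smul_snd, Pi.sub_apply, Pi.smul_apply,
          Pi.zero_apply, smul_eq_mul, mul_zero, sub_zero]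
        exact (h3 j).trans hBB
    rw [← hLab]
    calc ‖La v g i b‖ ≤ 2 * (k + m * |Cb|) * ‖b‖ := norm_La_le i hv hg b
      _ ≤ 2 * (k + m * |Cb|) * (|B| * (L * r)) := by gcongr
      _ = C1 * (L * r) := by rw [hC1]; ring
  obtain ⟨W, hW⟩ : ∃ W : ℝ, W = wt (L * r) (x - La v g i c) := ⟨_, rfl⟩
  have hW0 : 0 < W := by rw [hW]; exact wt_pos _ _
  -- pointwise bound
  have hpt : ∀ a ∈ D, ENNReal.ofReal (wt r (x - La v g i a)) ≤
      ENNReal.ofReal (Cs * W) * (ENNReal.ofReal (wt r (x - La v g i a)) +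
        ENNReal.ofReal ((L ^ (2 * (d + 1)))⁻¹)) := by
    intro a ha
    rw [← ENNReal.ofReal_add (wt_pos _ _).le (by positivity), ← ENNReal.ofReal_mul (by positivity)]
    refine ENNReal.ofReal_le_ofReal ?_
    refine (wt_two L r (x - La v g i a) hL hr).trans ?_
    have h1 : wt (L * r) (x - La v g i a) ≤ Cs * W := by
      rw [hW]
      have h2 := hslow (L * r) (x - La v g i c) (La v g i c - La v g i a) hLr (by
        rw [norm_sub_rev]
        exact hLac a ha)
      have h3 : x - La v g i c + (La v g i c - La v g i a) = x - La v g i a := by abel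
      rwa [h3] at h2
    have h4 : 0 ≤ wt r (x - La v g i a) + (L ^ (2 * (d + 1)))⁻¹ := by
      have := wt_pos r (x - La v g i a)
      positivity
    exact mul_le_mul_of_nonneg_right h1 h4
  -- first integral
  have hI1 : ∫⁻ a in D, ENNReal.ofReal (wt r (x - La v g i a)) ≤
      ENNReal.ofReal (κ * (Ci * r ^ d)) := by
    obtain ⟨F, hF⟩ : ∃ F : E d × ℝ → ℝ≥0∞, F = fun p =>
      ENNReal.ofReal (wt r (x - p.1)) * (Set.Ico (0 : ℝ) 1).indicator 1 p.2 := ⟨_, rfl⟩
    have hFm : Measurable F := by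
      rw [hF]
      refine Measurable.mul ?_ ?_
      · refine ENNReal.measurable_ofReal.comp ?_
        exact (continuous_wt r).measurable.comp (by fun_prop)
      · exact (measurable_one.indicator measurableSet_Ico).comp measurable_snd
    have h1 : ∫⁻ a in D, ENNReal.ofReal (wt r (x - La v g i a)) ≤ ∫⁻ a, F (T a) := by
      rw [← lintegral_indicator hDm]
      refine lintegral_mono fun a => ?_
      by_cases ha : a ∈ D
      · rw [Set.indicator_of_mem ha, hF, hTa]
        have ha2 := ha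
        rw [hD] at ha2
        simp only
        rw [Set.indicator_of_mem (show a.1 i ∈ Set.Ico (0 : ℝ) 1 from ha2.1), Pi.one_apply,
          mul_one]
      · rw [Set.indicator_of_notMem ha]
        exact zero_le
    have h2 : ∫⁻ y, F y = ∫⁻ y : E d, ENNReal.ofReal (wt r y) := by
      rw [hF, Measure.volume_eq_prod]
      rw [lintegral_prod_mul (f := fun p : E d => ENNReal.ofReal (wt r (x - p)))
        (g := (Set.Ico (0 : ℝ) 1).indicator 1)]
      · rw [lintegral_indicator_one measurableSet_Ico, Real.volume_Ico, sub_zero,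
          ENNReal.ofReal_one, mul_one]
        exact lintegral_sub_left_eq_self (fun y : E d => ENNReal.ofReal (wt r y)) x
      · refine (ENNReal.measurable_ofReal.comp ?_).aemeasurable
        exact (continuous_wt r).measurable.comp (by fun_prop)
      · exact (measurable_one.indicator measurableSet_Ico).aemeasurable
    calc _ ≤ ∫⁻ a, F (T a) := h1
      _ ≤ K * ∫⁻ y, F y := hK T hT F hFm
      _ ≤ K * ENNReal.ofReal (Ci * r ^ d) := by
          rw [h2]
          gcongr
          exact hint r hr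
      _ = _ := by rw [hKκ, ← ENNReal.ofReal_mul hκ0]
  -- volume of `D`
  have hI2 : volume D ≤ ENNReal.ofReal (κ * ((C1 * (L * r)) ^ d * w)) := by
    obtain ⟨S, hS⟩ : ∃ S : Set (E d × ℝ), S =
      Metric.closedBall (La v g i c) (C1 * (L * r)) ×ˢ Set.Ico (0 : ℝ) 1 := ⟨_, rfl⟩
    have hSm : MeasurableSet S := by
      rw [hS]
      exact Metric.isClosed_closedBall.measurableSet.prod measurableSet_Ico
    have h1 : volume D ≤ ∫⁻ a, S.indicator 1 (T a) := by
      rw [← lintegral_indicator_one hDm]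
      refine lintegral_mono fun a => ?_
      by_cases ha : a ∈ D
      · rw [Set.indicator_of_mem ha]
        have h2 : T a ∈ S := by
          rw [hS, hTa]
          have ha2 := ha
          rw [hD] at ha2
          refine ⟨?_, ha2.1⟩
          rw [Metric.mem_closedBall, dist_eq_norm]
          exact hLac a ha
        rw [Set.indicator_of_mem h2]
        exact le_rfl
      · rw [Set.indicator_of_notMem ha]
        exact zero_le
    have h2 : ∫⁻ y, S.indicator 1 y = ENNReal.ofReal ((C1 * (L * r)) ^ d) * V := by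
      rw [lintegral_indicator_one hSm, hS, Measure.volume_eq_prod, Measure.prod_prod,
        Real.volume_Ico, sub_zero, ENNReal.ofReal_one, mul_one,
        Measure.addHaar_closedBall _ _ (by positivity), finrank_euclideanSpace_fin, hV]
    calc volume D ≤ ∫⁻ a, S.indicator 1 (T a) := h1
      _ ≤ K * ∫⁻ y, S.indicator 1 y := hK T hT _ (measurable_one.indicator hSm)
      _ = _ := by
          rw [h2, hKκ, hVw, ← ENNReal.ofReal_mul (by positivity), ← ENNReal.ofReal_mul hκ0]
  rw [← hW]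
  calc ∫⁻ a in D, ENNReal.ofReal (wt r (x - La v g i a))
      ≤ ∫⁻ a in D, ENNReal.ofReal (Cs * W) * (ENNReal.ofReal (wt r (x - La v g i a)) +
        ENNReal.ofReal ((L ^ (2 * (d + 1)))⁻¹)) := setLIntegral_mono' hDm hpt
    _ = ENNReal.ofReal (Cs * W) * ((∫⁻ a in D, ENNReal.ofReal (wt r (x - La v g i a))) +
        ENNReal.ofReal ((L ^ (2 * (d + 1)))⁻¹) * volume D) := by
        rw [lintegral_const_mul' _ _ ENNReal.ofReal_ne_top, lintegral_add_right _ measurable_const,
          setLIntegral_const]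
    _ ≤ ENNReal.ofReal (Cs * W) * (ENNReal.ofReal (κ * (Ci * r ^ d)) +
        ENNReal.ofReal ((L ^ (2 * (d + 1)))⁻¹) *
          ENNReal.ofReal (κ * ((C1 * (L * r)) ^ d * w))) := by gcongr
    _ = ENNReal.ofReal (Cs * W * (κ * (Ci * r ^ d) +
        (L ^ (2 * (d + 1)))⁻¹ * (κ * ((C1 * (L * r)) ^ d * w)))) := by
        rw [← ENNReal.ofReal_mul (by positivity), ← ENNReal.ofReal_add (by positivity)
          (by positivity), ← ENNReal.ofReal_mul (by positivity)]
    _ ≤ ENNReal.ofReal ((Cs * (κ * Ci + κ * (C1 ^ d * w)) + 1) * r ^ d * W) := by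
        refine ENNReal.ofReal_le_ofReal ?_
        have h1 : (L ^ (2 * (d + 1)))⁻¹ * (κ * ((C1 * (L * r)) ^ d * w)) ≤
            κ * (C1 ^ d * w) * r ^ d := by
          have h2 : (L ^ (2 * (d + 1)))⁻¹ * L ^ d ≤ 1 := by
            rw [inv_mul_le_iff₀ (by positivity), mul_one]
            exact pow_le_pow_right₀ hL (by omega)
          calc (L ^ (2 * (d + 1)))⁻¹ * (κ * ((C1 * (L * r)) ^ d * w))
              = ((L ^ (2 * (d + 1)))⁻¹ * L ^ d) * (κ * (C1 ^ d * w) * r ^ d) := by
                rw [mul_pow, mul_pow]; ring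
            _ ≤ 1 * (κ * (C1 ^ d * w) * r ^ d) := by gcongr
            _ = _ := one_mul _
        calc Cs * W * (κ * (Ci * r ^ d) + (L ^ (2 * (d + 1)))⁻¹ * (κ * ((C1 * (L * r)) ^ d * w)))
            ≤ Cs * W * (κ * (Ci * r ^ d) + κ * (C1 ^ d * w) * r ^ d) := by gcongr
          _ = (Cs * (κ * Ci + κ * (C1 ^ d * w))) * r ^ d * W := by ring
          _ ≤ _ := by
              gcongr
              linarith

end Pool.Agent.H63.KL
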