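import Pool.Agent.H82.KL.Targets

/-!
# Module K3: rapid decay away from the light cone in the directions of the support
-/

set_option autoImplicit false

namespace Pool.Agent.H63.KL

open MeasureTheory Set FourierTransform
open scoped ENNReal NNReal SchwartzMap
open Pool.Agent.H82.KL

lemma ne_zero_of_mem {d : ℕ} {a : EE d → ℂ} (ha : Sym a) {ξ : EE d} (hξ : ξ ∈ tsupport a) :
    ξ ≠ 0 := by
  rintro rfl
  exact ha.2.2 hξ

lemma unit_mem_Dir {d : ℕ} {a : EE d → ℂ} {η : ℝ} (hη : 0 ≤ η) (ha : Sym a) {ξ : EE d}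
    (hξ : ξ ∈ tsupport a) : ‖ξ‖⁻¹ • ξ ∈ Dir η a := by
  have h0 := ne_zero_of_mem ha hξ
  refine ⟨?_, ξ, hξ, ?_⟩
  · rw [norm_smul, norm_inv, norm_norm]
    exact inv_mul_cancel₀ (norm_ne_zero_iff.2 h0)
  · rw [sub_self, norm_zero]
    exact hη

/-- a vector close to `-s ω` -/
lemma close_dir {d : ℕ} {c η s : ℝ} {y ω : EE d} (hc1 : c ≤ 1 / 4) (hcη : c ≤ η / 16)
    (hω : ‖ω‖ = 1) (hpos : 0 < ‖y‖ + |s|) (hw : ‖y + s • ω‖ < c * (‖y‖ + |s|)) :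
    ∃ ω₁ : EE d, ‖ω₁‖ = 1 ∧ ‖ω₁ - ω‖ ≤ η ∧ ‖y + s • ω₁‖ = abs (‖y‖ - |s|) := by
  have hsω : ‖s • ω‖ = |s| := by rw [norm_smul, hω, mul_one, Real.norm_eq_abs]
  have h1 : ‖y‖ ≤ ‖y + s • ω‖ + |s| := by
    calc ‖y‖ = ‖(y + s • ω) - s • ω‖ := by rw [add_sub_cancel_right]
      _ ≤ ‖y + s • ω‖ + ‖s • ω‖ := norm_sub_le _ _
      _ = _ := by rw [hsω]
  have h2 : |s| ≤ ‖y + s • ω‖ + ‖y‖ := by
    calc |s| = ‖s • ω‖ := hsω.symm
      _ = ‖(y + s • ω) - y‖ := by rw [add_sub_cancel_left]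
      _ ≤ ‖y + s • ω‖ + ‖y‖ := norm_sub_le _ _
  have hy0 : 0 < ‖y‖ := by nlinarith
  have hs0 : 0 < |s| := by nlinarith
  have hsne : s ≠ 0 := abs_pos.1 hs0
  have hwn : 0 ≤ ‖y + s • ω‖ := norm_nonneg _
  have hc0 : 0 < c := by
    by_contra h
    push Not at h
    nlinarith
  have hw' : ‖y + s • ω‖ ≤ 3 * c * ‖y‖ := by
    have g1 : ‖y + s • ω‖ * (1 - c) ≤ 2 * c * ‖y‖ := by nlinarith
    have g2 : ‖y + s • ω‖ * (3 / 4) ≤ ‖y + s • ω‖ * (1 - c) :=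
      mul_le_mul_of_nonneg_left (by linarith) hwn
    have g3 : 0 ≤ c * ‖y‖ := by positivity
    linarith
  obtain ⟨σ, hσ⟩ : ∃ σ : ℝ, σ = s / |s| := ⟨_, rfl⟩
  have hσ1 : |σ| = 1 := by rw [hσ, abs_div, abs_abs, div_self hs0.ne']
  have hsσ : s * σ = |s| := by
    rw [hσ, mul_div_assoc', div_eq_iff hs0.ne', ← abs_mul_abs_self s]
  have hσσ : σ * σ = 1 := by
    rw [← abs_mul_abs_self, hσ1, one_mul]
  have hsσ2 : s = |s| * σ := by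
    calc s = s * (σ * σ) := by rw [hσσ, mul_one]
      _ = (s * σ) * σ := by ring
      _ = |s| * σ := by rw [hsσ]
  refine ⟨-(σ * ‖y‖⁻¹) • y, ?_, ?_, ?_⟩
  · rw [norm_smul, norm_neg, norm_mul, norm_inv, norm_norm, Real.norm_eq_abs, hσ1, one_mul]
    exact inv_mul_cancel₀ hy0.ne'
  · have e1 : -(σ * ‖y‖⁻¹) • y - ω =
        (‖y‖⁻¹ * (|s| - ‖y‖)) • ω - (σ * ‖y‖⁻¹) • (y + s • ω) := by
      have e2 : ‖y‖⁻¹ * (|s| - ‖y‖) = σ * ‖y‖⁻¹ * s - 1 := by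
        have : ‖y‖⁻¹ * ‖y‖ = 1 := inv_mul_cancel₀ hy0.ne'
        calc ‖y‖⁻¹ * (|s| - ‖y‖) = ‖y‖⁻¹ * |s| - ‖y‖⁻¹ * ‖y‖ := by ring
          _ = ‖y‖⁻¹ * (s * σ) - 1 := by rw [this, hsσ]
          _ = _ := by ring
      rw [e2, smul_add, smul_smul, sub_smul, one_smul, neg_smul]
      abel
    rw [e1]
    calc ‖(‖y‖⁻¹ * (|s| - ‖y‖)) • ω - (σ * ‖y‖⁻¹) • (y + s • ω)‖
        ≤ ‖(‖y‖⁻¹ * (|s| - ‖y‖)) • ω‖ + ‖(σ * ‖y‖⁻¹) • (y + s • ω)‖ := norm_sub_le _ _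
      _ = ‖y‖⁻¹ * abs (|s| - ‖y‖) + ‖y‖⁻¹ * ‖y + s • ω‖ := by
          rw [norm_smul, norm_smul, hω, mul_one, norm_mul, norm_mul, norm_inv, norm_norm,
            Real.norm_eq_abs, Real.norm_eq_abs, hσ1, one_mul]
      _ ≤ ‖y‖⁻¹ * ‖y + s • ω‖ + ‖y‖⁻¹ * ‖y + s • ω‖ := by
          gcongr
          rw [abs_le]
          constructor <;> linarith
      _ = ‖y‖⁻¹ * (2 * ‖y + s • ω‖) := by ring
      _ ≤ ‖y‖⁻¹ * (2 * (3 * c * ‖y‖)) := by gcongr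
      _ = 6 * c * (‖y‖⁻¹ * ‖y‖) := by ring
      _ = 6 * c := by rw [inv_mul_cancel₀ hy0.ne', mul_one]
      _ ≤ η := by
          linarith
  · have e3 : y + s • (-(σ * ‖y‖⁻¹) • y) = ((‖y‖ - |s|) * ‖y‖⁻¹) • y := by
      rw [smul_smul]
      have e4 : s * -(σ * ‖y‖⁻¹) = (‖y‖ - |s|) * ‖y‖⁻¹ - 1 := by
        have : ‖y‖ * ‖y‖⁻¹ = 1 := mul_inv_cancel₀ hy0.ne'
        calc s * -(σ * ‖y‖⁻¹) = -(s * σ) * ‖y‖⁻¹ := by ring
          _ = -|s| * ‖y‖⁻¹ := by rw [hsσ]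
          _ = (‖y‖ - |s|) * ‖y‖⁻¹ - ‖y‖ * ‖y‖⁻¹ := by ring
          _ = _ := by rw [this]
      rw [e4, sub_smul, one_smul]
      abel
    rw [e3, norm_smul, norm_mul, norm_inv, norm_norm, Real.norm_eq_abs, mul_assoc,
      inv_mul_cancel₀ hy0.ne', mul_one]

theorem k3_main (h1 : T_K1) (h2 : T_K2) : T_K3 := by
  intro d M η a hd hη ha
  obtain ⟨c, hc⟩ : ∃ c : ℝ, c = min (1 / 4) (η / 16) := ⟨_, rfl⟩
  have hc0 : 0 < c := by rw [hc]; exact lt_min (by norm_num) (by positivity)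
  have hc1 : c ≤ 1 / 4 := by rw [hc]; exact min_le_left _ _
  have hc2 : c ≤ η / 16 := by rw [hc]; exact min_le_right _ _
  obtain ⟨C1, hC1, hk1⟩ := h1 d M a hd ha
  obtain ⟨C2, hC2, hk2⟩ := h2 d M c a hc0 ha
  refine ⟨C1 + C2, by positivity, ?_⟩
  intro y s r hr hdir
  have hr0 : 0 < r := by linarith
  have hrM : 0 ≤ (r ^ M)⁻¹ := by positivity
  rcases Set.eq_empty_or_nonempty (tsupport a) with hemp | ⟨ξ₀, hξ₀⟩
  · have ha0 : a = 0 := tsupport_eq_empty_iff.1 hemp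
    have hU : U a (y, s) = 0 := by
      unfold U
      rw [ha0]
      simp
    rw [hU, norm_zero]
    positivity
  · have hrys : r ≤ ‖y‖ + |s| := by
      have h3 := unit_mem_Dir hη.le ha hξ₀
      refine (hdir _ h3).trans ((norm_add_le _ _).trans ?_)
      rw [norm_smul, h3.1, mul_one, Real.norm_eq_abs]
    by_cases hcase : ∀ ξ ∈ tsupport a, c * (‖y‖ + |s|) ≤ ‖y + (s / ‖ξ‖) • ξ‖
    · calc ‖U a (y, s)‖ ≤ C2 * ((1 + ‖y‖ + |s|) ^ M)⁻¹ := hk2 y s hcase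
        _ ≤ C2 * (r ^ M)⁻¹ := by
            have : r ≤ 1 + ‖y‖ + |s| := by linarith
            gcongr
        _ ≤ (C1 + C2) * (r ^ M)⁻¹ := by
            gcongr
            linarith
    · push Not at hcase
      obtain ⟨ξ, hξ, hw⟩ := hcase
      have hu := unit_mem_Dir (η := 0) le_rfl ha hξ
      have hw' : ‖y + s • (‖ξ‖⁻¹ • ξ)‖ < c * (‖y‖ + |s|) := by
        rw [smul_smul]
        exact hw
      obtain ⟨ω₁, e1, e2, e3⟩ := close_dir hc1 hc2 hu.1 (by linarith) hw'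
      have h4 := hdir ω₁ ⟨e1, ξ, hξ, e2⟩
      rw [e3] at h4
      have hexp : -(((d : ℝ) - 1) / 2) ≤ 0 := by
        have : (1 : ℝ) ≤ d := by exact_mod_cast hd
        linarith
      have hbase : 1 ≤ 1 + ‖y‖ + |s| := by
        have := norm_nonneg y
        have := abs_nonneg s
        linarith
      calc ‖U a (y, s)‖ ≤ C1 * (1 + ‖y‖ + |s|) ^ (-(((d : ℝ) - 1) / 2)) *
            ((1 + abs (‖y‖ - |s|)) ^ M)⁻¹ := hk1 y s
        _ ≤ C1 * 1 * (r ^ M)⁻¹ := by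
            have h5 : r ≤ 1 + abs (‖y‖ - |s|) := by linarith
            gcongr
            exact Real.rpow_le_one_of_one_le_of_nonpos hbase hexp
        _ ≤ (C1 + C2) * (r ^ M)⁻¹ := by
            rw [mul_one]
            gcongr
            linarith

end Pool.Agent.H63.KL
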