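import Pool.Agent.H63.KL.ROW

/-!
# Module LCC: number of points of a level set on a light cone
-/

set_option autoImplicit false

namespace Pool.Agent.H63.KL

open MeasureTheory Set FourierTransform
open scoped ENNReal NNReal SchwartzMap
open Pool.Agent.H82.KL

/-- two points near the light cone of a third one, seen from a transversal direction -/
lemma cone_geom (h1 : T_SPH) {d : ℕ} {κ r s₁ s₂ : ℝ} {y₁ y₂ ω₁ ω₂ ω₀ : EE d} (hκ : 0 < κ)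
    (hκ2 : κ ≤ 2) (hω₁ : ‖ω₁‖ = 1) (hω₂ : ‖ω₂‖ = 1) (hω₀ : ‖ω₀‖ = 1) (h01 : κ ≤ ‖ω₁ - ω₀‖)
    (h02 : κ ≤ ‖ω₂ - ω₀‖) (hr : 0 ≤ r) (hy₁ : ‖y₁ + s₁ • ω₁‖ ≤ r) (hy₂ : ‖y₂ + s₂ • ω₂‖ ≤ r)
    (hbig : 64 / κ ^ 2 * r ≤ ‖y₂ - y₁‖ + |s₂ - s₁|) :
    κ ^ 2 / 16 * (‖y₂ - y₁‖ + |s₂ - s₁|) ≤ ‖(y₂ - y₁) + (s₂ - s₁) • ω₀‖ := by
  obtain ⟨v, hv⟩ : ∃ v : EE d, v = (s₂ - s₁) • (ω₀ - ω₁) + (-s₂) • (ω₂ - ω₁) := ⟨_, rfl⟩
  obtain ⟨g1, g2⟩ := h1 d ω₀ ω₁ ω₂ (s₂ - s₁) (-s₂) hω₀ hω₁ hω₂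
  rw [← hv] at g1 g2
  rw [abs_neg] at g1
  have n1 : κ ≤ ‖ω₀ - ω₁‖ := by rw [norm_sub_rev]; exact h01
  have n2 : κ ≤ ‖ω₀ - ω₂‖ := by rw [norm_sub_rev]; exact h02
  have g3 : κ / 2 * (|s₂| * ‖ω₂ - ω₁‖) ≤ ‖v‖ := by
    refine le_trans ?_ g1
    gcongr
  have g4 : κ / 2 * (|s₂ - s₁| * κ) ≤ ‖v‖ := by
    refine le_trans ?_ g2
    gcongr
  -- relation of the two vectors
  have e1 : (y₂ - y₁) + (s₂ - s₁) • ω₀ = v + ((y₂ + s₂ • ω₂) - (y₁ + s₁ • ω₁)) := by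
    rw [hv]
    module
  have e2 : ‖(y₂ + s₂ • ω₂) - (y₁ + s₁ • ω₁)‖ ≤ 2 * r := by
    refine (norm_sub_le _ _).trans ?_
    linarith
  have e3 : ‖v‖ ≤ ‖(y₂ - y₁) + (s₂ - s₁) • ω₀‖ + 2 * r := by
    have : v = ((y₂ - y₁) + (s₂ - s₁) • ω₀) - ((y₂ + s₂ • ω₂) - (y₁ + s₁ • ω₁)) := by
      rw [e1]
      abel
    calc ‖v‖ = ‖((y₂ - y₁) + (s₂ - s₁) • ω₀) - ((y₂ + s₂ • ω₂) - (y₁ + s₁ • ω₁))‖ := by
          rw [← this]
      _ ≤ _ := (norm_sub_le _ _).trans (by linarith)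
  have e4 : ‖y₂ - y₁‖ ≤ |s₂| * ‖ω₂ - ω₁‖ + |s₂ - s₁| + 2 * r := by
    have h5 : y₂ - y₁ = ((y₂ + s₂ • ω₂) - (y₁ + s₁ • ω₁)) - (s₂ • (ω₂ - ω₁) + (s₂ - s₁) • ω₁) := by
      module
    rw [h5]
    calc _ ≤ ‖(y₂ + s₂ • ω₂) - (y₁ + s₁ • ω₁)‖ + ‖s₂ • (ω₂ - ω₁) + (s₂ - s₁) • ω₁‖ :=
          norm_sub_le _ _
      _ ≤ 2 * r + (‖s₂ • (ω₂ - ω₁)‖ + ‖(s₂ - s₁) • ω₁‖) := add_le_add e2 (norm_add_le _ _)
      _ = 2 * r + (|s₂| * ‖ω₂ - ω₁‖ + |s₂ - s₁|) := by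
          rw [norm_smul, norm_smul, hω₁, mul_one, Real.norm_eq_abs, Real.norm_eq_abs]
      _ = _ := by ring
  obtain ⟨A, hA⟩ : ∃ A : ℝ, A = |s₂| * ‖ω₂ - ω₁‖ := ⟨_, rfl⟩
  obtain ⟨B, hB⟩ : ∃ B : ℝ, B = |s₂ - s₁| := ⟨_, rfl⟩
  have hA0 : 0 ≤ A := by rw [hA]; positivity
  have hB0 : 0 ≤ B := by rw [hB]; positivity
  rw [← hA] at g3 e4
  rw [← hB] at g4 e4 hbig ⊢
  obtain ⟨P, hP⟩ : ∃ P : ℝ, P = ‖y₂ - y₁‖ + B := ⟨_, rfl⟩
  rw [← hP] at hbig ⊢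
  have hP1 : P ≤ A + 2 * B + 2 * r := by rw [hP]; linarith
  have hκ3 : κ ^ 2 ≤ 4 := by nlinarith
  have hbig' : 64 * r ≤ κ ^ 2 * P := by
    have : κ ^ 2 * (64 / κ ^ 2 * r) = 64 * r := by field_simp
    calc 64 * r = κ ^ 2 * (64 / κ ^ 2 * r) := this.symm
      _ ≤ κ ^ 2 * P := by gcongr
  -- `κ² P ≤ κ² A + 2 κ² B + 2 κ² r ≤ 2 κ |v| + 4 |v| + 8 r`
  have f1 : κ ^ 2 * A ≤ 4 * ‖v‖ := by
    have : κ * (κ / 2 * A) ≤ κ * ‖v‖ := mul_le_mul_of_nonneg_left g3 hκ.le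
    nlinarith [norm_nonneg v]
  have f2 : κ ^ 2 * B ≤ 2 * ‖v‖ := by nlinarith
  have f3 : κ ^ 2 * P ≤ 8 * ‖v‖ + 8 * r := by
    have : κ ^ 2 * P ≤ κ ^ 2 * (A + 2 * B + 2 * r) := by gcongr
    nlinarith
  have f4 : κ ^ 2 * P ≤ 8 * ‖(y₂ - y₁) + (s₂ - s₁) • ω₀‖ + 24 * r := by linarith
  linarith

theorem lcc_main (h1 : T_SPH) (h2 : T_K2) (h3 : T_SHL) (h4 : T_PACK) (h5 : T_PSUM) : T_LCC := by
  classical
  intro d M η κ a a₀ hd hη hκ ha ha₀ hsep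
  -- constants
  obtain ⟨C2, hC2, hk2⟩ := h2 d (d + 2) (κ ^ 2 / 16) (sq a₀) (by positivity) (sym_sq ha₀)
  obtain ⟨CS, hCS, hshl⟩ := h3 d M a₀ hd ha₀
  obtain ⟨CP, hCP, hpack⟩ := h4 d
  obtain ⟨CU, hCU, hpsum⟩ := h5 d
  obtain ⟨C0, hC0⟩ : ∃ C0 : ℝ, C0 = ∫ ξ : EE d, ‖sq a₀ ξ‖ := ⟨_, rfl⟩
  have hC00 : 0 ≤ C0 := by rw [hC0]; positivity
  have hUsup : ∀ w : EE d × ℝ, ‖U (sq a₀) w‖ ≤ C0 := by
    intro w
    rw [hC0]
    unfold U
    refine (norm_integral_le_integral_norm _).trans (le_of_eq ?_)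
    congr 1
    funext ξ
    rw [norm_mul]
    unfold e
    rw [Complex.norm_exp_ofReal_mul_I, one_mul]
  obtain ⟨q, hq⟩ : ∃ q : ℝ, q = 64 / κ ^ 2 := ⟨_, rfl⟩
  have hq0 : 0 < q := by rw [hq]; positivity
  obtain ⟨C3, hC3⟩ : ∃ C3 : ℝ, C3 = C0 * CP * (1 + q) ^ (d + 1) + C2 * CU + 1 := ⟨_, rfl⟩
  have hC30 : 0 < C3 := by rw [hC3]; positivity
  refine ⟨8 * (CS + 1) * C3 + 2 * CS + 1, by positivity, ?_⟩
  intro R r ρ N h f Y z hR hr hrR hρ hρR hh hfm hfN hYs hY hbig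
  have hR0 : 0 < R := by linarith
  have hr0 : 0 < r := by linarith
  have hρ0 : 0 < ρ := by linarith
  obtain ⟨Z, hZ⟩ : ∃ Z : Finset (EE d × ℝ), Z = coneY η a r ρ Y z := ⟨_, rfl⟩
  rw [← hZ]
  have hZm : ∀ z' ∈ Z, z' ∈ Y ∧ dist z z' ≤ ρ ∧
      ∃ ω ∈ Dir η a, ‖(z.1 - z'.1) + (z.2 - z'.2) • ω‖ ≤ r := by
    intro z' hz'
    rw [hZ] at hz'
    unfold coneY at hz'
    rw [Finset.mem_filter] at hz'
    exact hz'
  have hN0 : 0 ≤ N := (norm_nonneg _).trans (hfN 0)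
  obtain ⟨N', hN'⟩ : ∃ N' : ℝ, N' = N * R ^ (((d : ℝ) - 1) / 2) := ⟨_, rfl⟩
  rw [← hN'] at hbig ⊢
  have hN'0 : 0 ≤ N' := by rw [hN']; positivity
  rcases Finset.eq_empty_or_nonempty Z with hZe | hZne
  · rw [hZe, Finset.card_empty, Nat.cast_zero]
    positivity
  have hcard0 : (0 : ℝ) < Z.card := by exact_mod_cast hZne.card_pos
  -- separated subset
  have hZs : Sep Z := fun x hx y hy hxy => hYs x (hZm x hx).1 y (hZm y hy).1 hxy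
  -- the row sums
  have hrow : ∀ z' ∈ Z, ∑ z'' ∈ Z, ‖U (sq a₀) (z' - z'')‖ ≤ C3 * r ^ (d + 1) := by
    intro z' hz'
    obtain ⟨hz'Y, hz'ρ, ω₁, hω₁, hy₁⟩ := hZm z' hz'
    have hpair : ∀ z'' ∈ Z, q * r < dist z' z'' →
        ‖U (sq a₀) (z' - z'')‖ ≤ C2 * ((1 + dist z' z'') ^ (d + 2))⁻¹ := by
      intro z'' hz'' hfar
      obtain ⟨hz''Y, hz''ρ, ω₂, hω₂, hy₂⟩ := hZm z'' hz''
      have hdl := dist_le_add z' z''
      have hk := hk2 (z'.1 - z''.1) (z'.2 - z''.2) (by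
        intro ξ hξ
        rw [tsupport_sq] at hξ
        have hω₀ := unit_mem_Dir hη.le ha₀ hξ
        have k1 := hsep ω₁ hω₁ _ hω₀
        have k2 := hsep ω₂ hω₂ _ hω₀
        have hκ2 : κ ≤ 2 := by
          refine k1.trans ((norm_sub_le _ _).trans ?_)
          rw [hω₁.1, hω₀.1]
          norm_num
        have hg := cone_geom h1 hκ hκ2 hω₁.1 hω₂.1 hω₀.1 k1 k2 hr0.le hy₁ hy₂
          (r := r) (s₁ := z.2 - z'.2) (s₂ := z.2 - z''.2) (y₁ := z.1 - z'.1)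
          (y₂ := z.1 - z''.1) (by
            have e1 : z.1 - z''.1 - (z.1 - z'.1) = z'.1 - z''.1 := by abel
            have e2 : z.2 - z''.2 - (z.2 - z'.2) = z'.2 - z''.2 := by ring
            rw [e1, e2, ← hq]
            linarith)
        have e1 : z.1 - z''.1 - (z.1 - z'.1) = z'.1 - z''.1 := by abel
        have e2 : z.2 - z''.2 - (z.2 - z'.2) = z'.2 - z''.2 := by ring
        rw [e1, e2, smul_smul] at hg
        exact hg)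
      refine (show ‖U (sq a₀) (z' - z'')‖ ≤ _ from hk).trans ?_
      have hdn : 0 ≤ dist z' z'' := dist_nonneg
      have h6 : 1 + dist z' z'' ≤ 1 + ‖z'.1 - z''.1‖ + |z'.2 - z''.2| := by linarith
      exact mul_le_mul_of_nonneg_left (inv_anti₀ (by positivity)
        (pow_le_pow_left₀ (by positivity) h6 _)) hC2
    have hpt : ∀ z'' ∈ Z, ‖U (sq a₀) (z' - z'')‖ ≤
        (if dist z' z'' ≤ q * r then C0 else 0) + C2 * ((1 + dist z' z'') ^ (d + 2))⁻¹ := by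
      intro z'' hz''
      have hdn : 0 ≤ dist z' z'' := dist_nonneg
      split_ifs with hd1
      · have := hUsup (z' - z'')
        have h6 : 0 ≤ C2 * ((1 + dist z' z'') ^ (d + 2))⁻¹ := by positivity
        linarith
      · rw [zero_add]
        exact hpair z'' hz'' (not_le.1 hd1)
    calc ∑ z'' ∈ Z, ‖U (sq a₀) (z' - z'')‖
        ≤ ∑ z'' ∈ Z, ((if dist z' z'' ≤ q * r then C0 else 0) +
          C2 * ((1 + dist z' z'') ^ (d + 2))⁻¹) := Finset.sum_le_sum hpt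
      _ = ((Z.filter (fun z'' => dist z' z'' ≤ q * r)).card : ℝ) * C0 +
          C2 * ∑ z'' ∈ Z, ((1 + dist z' z'') ^ (d + 2))⁻¹ := by
          rw [Finset.sum_add_distrib, ← Finset.sum_filter, Finset.sum_const, nsmul_eq_mul,
            Finset.mul_sum]
      _ ≤ (CP * (1 + q * r) ^ (d + 1)) * C0 + C2 * CU := by
          gcongr
          · refine hpack _ z' (q * r) ?_ (by positivity) ?_
            · intro x hx y hy hxy
              exact hZs x (Finset.mem_filter.1 hx).1 y (Finset.mem_filter.1 hy).1 hxy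
            · intro x hx
              exact (Finset.mem_filter.1 hx).2
          · exact hpsum Z z' hZs
      _ ≤ (CP * ((1 + q) * r) ^ (d + 1)) * C0 + (C2 * CU + 1) * r ^ (d + 1) := by
          have h7 : 1 + q * r ≤ (1 + q) * r := by nlinarith
          have h8 : (1 : ℝ) ≤ r ^ (d + 1) := one_le_pow₀ hr
          have h9 : C2 * CU ≤ (C2 * CU + 1) * r ^ (d + 1) := by
            have : 0 ≤ C2 * CU := by positivity
            nlinarith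
          gcongr
      _ = C3 * r ^ (d + 1) := by rw [hC3, mul_pow]; ring
  -- the pairing
  obtain ⟨c, hc⟩ : ∃ c : EE d × ℝ → ℂ, c = fun z' =>
    (starRingEnd ℂ) (W a₀ f z') / (‖W a₀ f z'‖ : ℂ) := ⟨_, rfl⟩
  have hWpos : ∀ z' ∈ Z, 0 < ‖W a₀ f z'‖ := fun z' hz' =>
    lt_of_lt_of_le hh (hY z' (hZm z' hz').1).2.2
  have hcn : ∀ z' ∈ Z, ‖c z'‖ = 1 := by
    intro z' hz'
    have := hWpos z' hz'
    rw [hc]
    simp only [norm_div, RCLike.norm_conj, Complex.norm_real, norm_norm]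
    exact div_self this.ne'
  have hcW : ∀ z' ∈ Z, c z' * W a₀ f z' = ((‖W a₀ f z'‖ : ℝ) : ℂ) := by
    intro z' hz'
    have h6 := hWpos z' hz'
    have h7 : ((‖W a₀ f z'‖ : ℝ) : ℂ) ≠ 0 := by exact_mod_cast h6.ne'
    rw [hc]
    simp only
    rw [div_mul_eq_mul_div, div_eq_iff h7, mul_comm, Complex.mul_conj, Complex.normSq_eq_norm_sq]
    push_cast
    ring
  have hsum : h * Z.card ≤ ‖∑ z' ∈ Z, c z' * W a₀ f z'‖ := by
    rw [Finset.sum_congr rfl hcW, ← Complex.ofReal_sum, Complex.norm_real, Real.norm_eq_abs]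
    refine le_trans ?_ (le_abs_self _)
    rw [mul_comm, ← nsmul_eq_mul, ← Finset.sum_const]
    exact Finset.sum_le_sum fun z' hz' => (hY z' (hZm z' hz').1).2.2
  have hgq : gq a₀ Z c ≤ Z.card * (C3 * r ^ (d + 1)) := by
    unfold gq
    refine (Complex.re_le_norm _).trans ?_
    calc ‖∑ z' ∈ Z, ∑ z'' ∈ Z, c z' * (starRingEnd ℂ) (c z'') * U (sq a₀) (z' - z'')‖
        ≤ ∑ z' ∈ Z, C3 * r ^ (d + 1) := by
          refine norm_sum_le_of_le _ fun z' hz' => ?_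
          refine le_trans (norm_sum_le_of_le _ (fun z'' hz'' => ?_)) (hrow z' hz')
          rw [norm_mul, norm_mul, RCLike.norm_conj, hcn z' hz', hcn z'' hz'', one_mul, one_mul]
      _ = Z.card * (C3 * r ^ (d + 1)) := by rw [Finset.sum_const, nsmul_eq_mul]
  have hmain := hshl R r ρ N f Z c z hR hr hrR hρ0.le hρR hfm hfN (by
    intro z' hz'
    obtain ⟨m1, m2, m3⟩ := hZm z' hz'
    rw [dist_comm]
    exact ⟨m2, (hY z' m1).1, (hY z' m1).2.1⟩)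
  rw [Finset.sum_congr rfl hcn, Finset.sum_const, nsmul_eq_mul, mul_one,
    show CS * N * R ^ (((d : ℝ) - 1) / 2) = CS * N' by rw [hN']; ring] at hmain
  -- the error term
  have hrM : 0 < r ^ M := by positivity
  have herr : CS * N' * (r ^ M)⁻¹ * Z.card ≤ h / 2 * Z.card := by
    refine mul_le_mul_of_nonneg_right ?_ hcard0.le
    rw [← div_eq_mul_inv, div_le_iff₀ hrM]
    have h6 : 2 * CS * (N' / h) ≤ r ^ M := by
      refine le_trans ?_ hbig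
      have : 0 ≤ N' / h := by positivity
      have h7 : 2 * CS ≤ 8 * (CS + 1) * C3 + 2 * CS + 1 := by
        have : 0 ≤ 8 * (CS + 1) * C3 := by positivity
        linarith
      gcongr
    have h8 : 2 * CS * N' ≤ r ^ M * h := by
      calc 2 * CS * N' = 2 * CS * (N' / h) * h := by field_simp
        _ ≤ r ^ M * h := by gcongr
    linarith
  have hkey : h / 2 * Z.card ≤ N * Real.sqrt (CS * R ^ ((d : ℝ) - 1) * (ρ + r)) *
      Real.sqrt (Z.card * (C3 * r ^ (d + 1))) := by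
    have h6 : N * Real.sqrt (CS * R ^ ((d : ℝ) - 1) * (ρ + r)) * Real.sqrt (gq a₀ Z c) ≤
        N * Real.sqrt (CS * R ^ ((d : ℝ) - 1) * (ρ + r)) *
          Real.sqrt (Z.card * (C3 * r ^ (d + 1))) := by
      gcongr
    linarith
  have hsq : (h / 2 * Z.card) ^ 2 ≤ N ^ 2 * (CS * R ^ ((d : ℝ) - 1) * (ρ + r)) *
      (Z.card * (C3 * r ^ (d + 1))) := by
    calc (h / 2 * Z.card) ^ 2 ≤ (N * Real.sqrt (CS * R ^ ((d : ℝ) - 1) * (ρ + r)) *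
          Real.sqrt (Z.card * (C3 * r ^ (d + 1)))) ^ 2 := by
          gcongr
      _ = _ := by
          rw [mul_pow, mul_pow, Real.sq_sqrt (by positivity), Real.sq_sqrt (by positivity)]
  have hN'sq : N ^ 2 * R ^ ((d : ℝ) - 1) = N' ^ 2 := by
    rw [hN', mul_pow, ← Real.rpow_natCast (R ^ _) 2, ← Real.rpow_mul hR0.le]
    congr 2
    push_cast
    ring
  have hfin : h ^ 2 * Z.card ≤ 4 * CS * C3 * N' ^ 2 * (ρ + r) * r ^ (d + 1) := by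
    have h6 : (h ^ 2 * Z.card) * Z.card ≤
        (4 * CS * C3 * N' ^ 2 * (ρ + r) * r ^ (d + 1)) * Z.card := by
      rw [← hN'sq]
      nlinarith
    exact le_of_mul_le_mul_right h6 hcard0
  have hρr : ρ + r ≤ 2 * (ρ * r) := by nlinarith
  have hfin2 : (Z.card : ℝ) ≤ 8 * CS * C3 * (N' / h) ^ 2 * (ρ * r) * r ^ (d + 1) := by
    have h6 : h ^ 2 * Z.card ≤ h ^ 2 * (8 * CS * C3 * (N' / h) ^ 2 * (ρ * r) * r ^ (d + 1)) := by
      refine hfin.trans ?_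
      have h7 : h ^ 2 * (8 * CS * C3 * (N' / h) ^ 2 * (ρ * r) * r ^ (d + 1)) =
          4 * CS * C3 * N' ^ 2 * (2 * (ρ * r)) * r ^ (d + 1) := by
        field_simp
        ring
      rw [h7]
      gcongr
    exact le_of_mul_le_mul_left h6 (by positivity)
  refine hfin2.trans ?_
  have h6 : 8 * CS * C3 ≤ 8 * (CS + 1) * C3 + 2 * CS + 1 := by nlinarith
  calc 8 * CS * C3 * (N' / h) ^ 2 * (ρ * r) * r ^ (d + 1)
      = 8 * CS * C3 * (r ^ (d + 2) * ρ * (N' / h) ^ 2) := by ring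
    _ ≤ (8 * (CS + 1) * C3 + 2 * CS + 1) * (r ^ (d + 2) * ρ * (N' / h) ^ 2) := by
        gcongr
    _ = _ := by ring

end Pool.Agent.H63.KL
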