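import Pool.Agent.H63.KL.K3

/-!
# Module ROW: row sums of the Gram matrix
-/

set_option autoImplicit false

namespace Pool.Agent.H63.KL

open MeasureTheory Set FourierTransform
open scoped ENNReal NNReal SchwartzMap
open Pool.Agent.H82.KL

lemma support_sq {d : ℕ} (a : EE d → ℂ) : Function.support (sq a) = Function.support a := by
  ext ξ
  simp [Pool.Agent.H82.KL.sq, Function.mem_support]

lemma tsupport_sq {d : ℕ} (a : EE d → ℂ) : tsupport (sq a) = tsupport a := by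
  unfold tsupport
  rw [support_sq]

lemma sym_sq {d : ℕ} {a : EE d → ℂ} (ha : Sym a) : Sym (sq a) := by
  refine ⟨?_, ?_, ?_⟩
  · have h1 : ContDiff ℝ (⊤ : ℕ∞) (fun ξ => ‖a ξ‖ ^ 2) := ha.1.norm_sq ℝ
    exact Complex.ofRealCLM.contDiff.comp h1
  · unfold HasCompactSupport
    rw [tsupport_sq]
    exact ha.2.1
  · rw [tsupport_sq]
    exact ha.2.2

lemma Dir_sq {d : ℕ} (η : ℝ) (a : EE d → ℂ) : Dir η (sq a) = Dir η a := by
  unfold Dir
  rw [tsupport_sq]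

lemma dist_le_add {d : ℕ} (z z' : EE d × ℝ) :
    dist z z' ≤ ‖z.1 - z'.1‖ + |z.2 - z'.2| := by
  rw [Prod.dist_eq, dist_eq_norm, Real.dist_eq]
  exact max_le (by linarith [abs_nonneg (z.2 - z'.2)]) (by linarith [norm_nonneg (z.1 - z'.1)])

lemma add_le_dist {d : ℕ} (z z' : EE d × ℝ) :
    ‖z.1 - z'.1‖ + |z.2 - z'.2| ≤ 2 * dist z z' := by
  rw [Prod.dist_eq, dist_eq_norm, Real.dist_eq]
  have h1 := le_max_left ‖z.1 - z'.1‖ |z.2 - z'.2|
  have h2 := le_max_right ‖z.1 - z'.1‖ |z.2 - z'.2|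
  linarith

theorem row_main (h1 : T_K1) (h2 : T_K3) (h3 : T_PACK) : T_ROW := by
  classical
  intro d M η a hd hη ha
  have hd1 : 1 ≤ d := by omega
  have hdR : (3 : ℝ) ≤ d := by exact_mod_cast hd
  obtain ⟨C1, hC1, hk1⟩ := h1 d 0 (sq a) hd1 (sym_sq ha)
  obtain ⟨C3, hC3, hk3⟩ := h2 d M η (sq a) hd1 hη (sym_sq ha)
  obtain ⟨CP, hCP, hpack⟩ := h3 d
  rw [Dir_sq] at hk3
  refine ⟨8 * C1 + CP * 3 ^ (d + 1) * C3, by positivity, ?_⟩
  intro R r ρ Λ Y z hR hr hρ hΛ hsep hY hcone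
  have hR0 : 0 < R := by linarith
  have hr0 : 0 < r := by linarith
  have hρ0 : 0 < ρ := by linarith
  have hlog : 0 ≤ Real.log R := Real.log_nonneg hR
  -- the points in the cone
  obtain ⟨A, hA⟩ : ∃ A : Finset (EE d × ℝ), A = Y.filter (fun z' =>
    ∃ ω ∈ Dir η a, ‖(z.1 - z'.1) + (z.2 - z'.2) • ω‖ ≤ r) := ⟨_, rfl⟩
  obtain ⟨B, hB⟩ : ∃ B : Finset (EE d × ℝ), B = Y.filter (fun z' =>
    ¬ ∃ ω ∈ Dir η a, ‖(z.1 - z'.1) + (z.2 - z'.2) • ω‖ ≤ r) := ⟨_, rfl⟩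
  have hsplit : ∑ z' ∈ Y, ‖U (sq a) (z - z')‖ =
      ∑ z' ∈ A, ‖U (sq a) (z - z')‖ + ∑ z' ∈ B, ‖U (sq a) (z - z')‖ := by
    rw [hA, hB, Finset.sum_filter_add_sum_filter_not]
  -- outside the cone
  have hBsum : ∑ z' ∈ B, ‖U (sq a) (z - z')‖ ≤ CP * 3 ^ (d + 1) * C3 * R ^ (d + 1) * (r ^ M)⁻¹ := by
    have hb1 : ∀ z' ∈ B, ‖U (sq a) (z - z')‖ ≤ C3 * (r ^ M)⁻¹ := by
      intro z' hz'
      rw [hB, Finset.mem_filter] at hz'
      refine hk3 (z.1 - z'.1) (z.2 - z'.2) r hr fun ω hω => ?_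
      by_contra hlt
      push Not at hlt
      exact hz'.2 ⟨ω, hω, hlt.le⟩
    have hb2 : (B.card : ℝ) ≤ CP * (1 + 2 * R) ^ (d + 1) := by
      have h4 : (B.card : ℝ) ≤ Y.card := by
        rw [hB]
        exact_mod_cast Finset.card_filter_le _ _
      exact h4.trans (hpack Y z (2 * R) hsep (by positivity) fun z' hz' => (hY z' hz').1)
    calc ∑ z' ∈ B, ‖U (sq a) (z - z')‖ ≤ ∑ z' ∈ B, C3 * (r ^ M)⁻¹ := Finset.sum_le_sum hb1
      _ = B.card * (C3 * (r ^ M)⁻¹) := by rw [Finset.sum_const, nsmul_eq_mul]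
      _ ≤ (CP * (1 + 2 * R) ^ (d + 1)) * (C3 * (r ^ M)⁻¹) := by gcongr
      _ ≤ (CP * (3 * R) ^ (d + 1)) * (C3 * (r ^ M)⁻¹) := by
          gcongr
          linarith
      _ = _ := by rw [mul_pow]; ring
  -- the dyadic classes
  obtain ⟨cl, hcl⟩ : ∃ cl : EE d × ℝ → ℕ, cl = fun z' => Nat.log 2 ⌊dist z z' / ρ⌋₊ := ⟨_, rfl⟩
  have hAm : ∀ z' ∈ A, z' ∈ Y ∧ (∃ ω ∈ Dir η a, ‖(z.1 - z'.1) + (z.2 - z'.2) • ω‖ ≤ r) := by
    intro z' hz'
    rw [hA, Finset.mem_filter] at hz'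
    exact hz'
  have hclp : ∀ z' ∈ A, (2 : ℝ) ^ cl z' * ρ ≤ dist z z' ∧ dist z z' ≤ 2 ^ (cl z' + 1) * ρ := by
    intro z' hz'
    obtain ⟨g1, g2⟩ := hY z' (hAm z' hz').1
    have g3 : 1 ≤ dist z z' / ρ := by rw [le_div_iff₀ hρ0]; linarith
    have g4 : 1 ≤ ⌊dist z z' / ρ⌋₊ := by rwa [Nat.one_le_floor_iff]
    have g5 := Nat.pow_log_le_self 2 (show ⌊dist z z' / ρ⌋₊ ≠ 0 by omega)
    have g6 := Nat.lt_pow_succ_log_self (b := 2) (by norm_num) ⌊dist z z' / ρ⌋₊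
    have g7 : (⌊dist z z' / ρ⌋₊ : ℝ) ≤ dist z z' / ρ := Nat.floor_le (by linarith)
    have g8 : dist z z' / ρ < ⌊dist z z' / ρ⌋₊ + 1 := Nat.lt_floor_add_one _
    rw [hcl]
    constructor
    · rw [← le_div_iff₀ hρ0]
      refine le_trans ?_ g7
      exact_mod_cast g5
    · rw [← div_le_iff₀ hρ0]
      refine g8.le.trans ?_
      exact_mod_cast g6
  obtain ⟨L, hL⟩ : ∃ L : ℕ, L = Nat.log 2 ⌊2 * R⌋₊ := ⟨_, rfl⟩
  have hfl : 1 ≤ ⌊2 * R⌋₊ := by rw [Nat.one_le_floor_iff]; linarith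
  have hLle : (2 : ℝ) ^ L ≤ 2 * R := by
    have g5 := Nat.pow_log_le_self 2 (show ⌊2 * R⌋₊ ≠ 0 by omega)
    rw [← hL] at g5
    have g7 : (⌊2 * R⌋₊ : ℝ) ≤ 2 * R := Nat.floor_le (by linarith)
    refine le_trans ?_ g7
    exact_mod_cast g5
  have hLlog : (L : ℝ) ≤ 1 + 2 * Real.log R := by
    have g1 : Real.log ((2 : ℝ) ^ L) ≤ Real.log (2 * R) := Real.log_le_log (by positivity) hLle
    rw [Real.log_pow, Real.log_mul (by norm_num) hR0.ne'] at g1
    have g2 : (0.5 : ℝ) < Real.log 2 := by linarith [Real.log_two_gt_d9]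
    by_contra hcon
    push Not at hcon
    nlinarith
  have hmaps : ∀ z' ∈ A, cl z' ∈ Finset.range (L + 1) := by
    intro z' hz'
    obtain ⟨g1, g2⟩ := hY z' (hAm z' hz').1
    rw [Finset.mem_range, hcl, hL]
    refine Nat.lt_succ_of_le (Nat.log_mono_right ?_)
    refine Nat.floor_le_floor ?_
    calc dist z z' / ρ ≤ dist z z' := div_le_self dist_nonneg hρ
      _ ≤ 2 * R := g1
  have hAsum : ∑ z' ∈ A, ‖U (sq a) (z - z')‖ ≤
      8 * C1 * (1 + Real.log R) * Λ * ρ ^ (-(((d : ℝ) - 3) / 2)) := by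
    rw [← Finset.sum_fiberwise_of_maps_to hmaps]
    have hfib : ∀ l ∈ Finset.range (L + 1), ∑ z' ∈ A with cl z' = l, ‖U (sq a) (z - z')‖ ≤
        2 * C1 * Λ * ρ ^ (-(((d : ℝ) - 3) / 2)) := by
      intro l _
      rcases Finset.eq_empty_or_nonempty (A.filter (fun z' => cl z' = l)) with h0 | ⟨z₁, hz₁⟩
      · rw [h0, Finset.sum_empty]
        positivity
      · rw [Finset.mem_filter] at hz₁
        obtain ⟨k1, k2⟩ := hclp z₁ hz₁.1
        rw [hz₁.2] at k1 k2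
        have k3 := (hY z₁ (hAm z₁ hz₁.1).1).1
        obtain ⟨x, hx⟩ : ∃ x : ℝ, x = 2 ^ l * ρ := ⟨_, rfl⟩
        have hx0 : 0 < x := by rw [hx]; positivity
        have hxρ : ρ ≤ x := by
          rw [hx]
          have : (1 : ℝ) ≤ 2 ^ l := one_le_pow₀ (by norm_num)
          nlinarith
        have h2x : 2 ^ (l + 1) * ρ = 2 * x := by rw [hx, pow_succ]; ring
        have hterm : ∀ z' ∈ A.filter (fun z' => cl z' = l),
            ‖U (sq a) (z - z')‖ ≤ C1 * x ^ (-(((d : ℝ) - 1) / 2)) := by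
          intro z' hz'
          rw [Finset.mem_filter] at hz'
          obtain ⟨m1, m2⟩ := hclp z' hz'.1
          rw [hz'.2, ← hx] at m1
          have m3 := hk1 (z.1 - z'.1) (z.2 - z'.2)
          rw [pow_zero, inv_one, mul_one] at m3
          refine m3.trans ?_
          refine mul_le_mul_of_nonneg_left ?_ hC1
          refine Real.rpow_le_rpow_of_nonpos hx0 ?_ (by linarith)
          have := dist_le_add z z'
          linarith
        have hcard : ((A.filter (fun z' => cl z' = l)).card : ℝ) ≤ Λ * (2 * x) := by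
          have hsub : A.filter (fun z' => cl z' = l) ⊆ coneY η a r (2 * x) Y z := by
            intro z' hz'
            rw [Finset.mem_filter] at hz'
            obtain ⟨m1, m2⟩ := hclp z' hz'.1
            rw [hz'.2, h2x] at m2
            unfold coneY
            rw [Finset.mem_filter]
            exact ⟨(hAm z' hz'.1).1, m2, (hAm z' hz'.1).2⟩
          refine le_trans (by exact_mod_cast Finset.card_le_card hsub) (hcone (2 * x) ?_ ?_)
          · linarith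
          · rw [← hx] at k1
            linarith
        calc ∑ z' ∈ A with cl z' = l, ‖U (sq a) (z - z')‖
            ≤ ∑ z' ∈ A with cl z' = l, C1 * x ^ (-(((d : ℝ) - 1) / 2)) :=
              Finset.sum_le_sum hterm
          _ = (A.filter (fun z' => cl z' = l)).card * (C1 * x ^ (-(((d : ℝ) - 1) / 2))) := by
              rw [Finset.sum_const, nsmul_eq_mul]
          _ ≤ (Λ * (2 * x)) * (C1 * x ^ (-(((d : ℝ) - 1) / 2))) := by gcongr
          _ = 2 * C1 * Λ * (x ^ (1 : ℝ) * x ^ (-(((d : ℝ) - 1) / 2))) := by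
              rw [Real.rpow_one]; ring
          _ = 2 * C1 * Λ * x ^ (-(((d : ℝ) - 3) / 2)) := by
              rw [← Real.rpow_add hx0]
              congr 2
              ring
          _ ≤ 2 * C1 * Λ * ρ ^ (-(((d : ℝ) - 3) / 2)) := by
              refine mul_le_mul_of_nonneg_left ?_ (by positivity)
              exact Real.rpow_le_rpow_of_nonpos hρ0 hxρ (by linarith)
    calc ∑ l ∈ Finset.range (L + 1), ∑ z' ∈ A with cl z' = l, ‖U (sq a) (z - z')‖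
        ≤ ∑ _l ∈ Finset.range (L + 1), 2 * C1 * Λ * ρ ^ (-(((d : ℝ) - 3) / 2)) :=
          Finset.sum_le_sum hfib
      _ = (L + 1) * (2 * C1 * Λ * ρ ^ (-(((d : ℝ) - 3) / 2))) := by
          rw [Finset.sum_const, Finset.card_range, nsmul_eq_mul]
          push_cast
          ring
      _ ≤ (4 * (1 + Real.log R)) * (2 * C1 * Λ * ρ ^ (-(((d : ℝ) - 3) / 2))) := by
          gcongr
          linarith
      _ = _ := by ring
  rw [hsplit]
  have p1 : 0 ≤ (1 + Real.log R) * Λ * ρ ^ (-(((d : ℝ) - 3) / 2)) := by positivity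
  have p2 : 0 ≤ R ^ (d + 1) * (r ^ M)⁻¹ := by positivity
  have p3 : 0 ≤ CP * 3 ^ (d + 1) * C3 := by positivity
  calc ∑ z' ∈ A, ‖U (sq a) (z - z')‖ + ∑ z' ∈ B, ‖U (sq a) (z - z')‖
      ≤ 8 * C1 * (1 + Real.log R) * Λ * ρ ^ (-(((d : ℝ) - 3) / 2)) +
        CP * 3 ^ (d + 1) * C3 * R ^ (d + 1) * (r ^ M)⁻¹ := add_le_add hAsum hBsum
    _ = 8 * C1 * ((1 + Real.log R) * Λ * ρ ^ (-(((d : ℝ) - 3) / 2))) +
        CP * 3 ^ (d + 1) * C3 * (R ^ (d + 1) * (r ^ M)⁻¹) := by ring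
    _ ≤ (8 * C1 + CP * 3 ^ (d + 1) * C3) * ((1 + Real.log R) * Λ * ρ ^ (-(((d : ℝ) - 3) / 2))) +
        (8 * C1 + CP * 3 ^ (d + 1) * C3) * (R ^ (d + 1) * (r ^ M)⁻¹) := by
        gcongr
        · linarith
        · linarith
    _ = _ := by ring

end Pool.Agent.H63.KL
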